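import Mathlib
import Pool.Agent.H505R2.Forms

/-!
Pairs of vectors in the positive quadrant with determinant one and a given inner product.
-/

set_option autoImplicit false
set_option maxHeartbeats 400000

namespace Pool.Agent.Q91.RP

open Finset Pool.Agent.H505R2

variable {b c : ℤ}

lemma qf_pos_of (hb : 0 ≤ b) (hc : 1 ≤ c) {x : ℤ × ℤ} (h1 : 0 ≤ x.1) (h2 : 0 < x.2) :
    0 < qf b c x := by
  unfold qf
  have h3 : 0 ≤ b * x.1 * x.2 := by positivity
  have h4 : 0 < c * x.2 ^ 2 := by positivity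
  nlinarith [sq_nonneg x.1]

lemma coord_le (hb : 0 ≤ b) (hc : 1 ≤ c) {x : ℤ × ℤ} (h1 : 0 ≤ x.1) (h2 : 0 ≤ x.2) :
    x.1 ^ 2 ≤ qf b c x ∧ x.2 ^ 2 ≤ qf b c x := by
  unfold qf
  have h3 : 0 ≤ b * x.1 * x.2 := by positivity
  have h4 : x.2 ^ 2 ≤ c * x.2 ^ 2 := by nlinarith [sq_nonneg x.2]
  constructor
  · nlinarith [sq_nonneg x.2]
  · nlinarith [sq_nonneg x.1]

/-- products of coordinates of two vectors with the same value of the form -/
lemma mul_le_q {u v q : ℤ} (_ : 0 ≤ u) (_ : 0 ≤ v) (h1 : u ^ 2 ≤ q) (h2 : v ^ 2 ≤ q) :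
    u * v ≤ q := by nlinarith [sq_nonneg (u - v)]

/-- pairs with a given inner product and a given first value -/
lemma fiber_pos (hb : 0 ≤ b) (hc : 1 ≤ c) (N q : ℤ) (hq : 0 < q)
    (F : Finset ((ℤ × ℤ) × (ℤ × ℤ)))
    (hF : ∀ w ∈ F, dt w.1 w.2 = 1 ∧ ip b c w.1 w.2 = N ∧ qf b c w.1 = q ∧ 0 ≤ w.1.1 ∧
      0 ≤ w.1.2) :
    F.card ≤ 3 * (b + c + 2).toNat := by
  classical
  rcases F.eq_empty_or_nonempty with rfl | ⟨w0, hw0⟩
  · simp
  obtain ⟨h01, h02, h03, h04, h05⟩ := hF w0 hw0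
  have key : ∀ w ∈ F, ip b c w0.1 w.1 = q * (w.1.1 * w0.2.2 - w0.1.2 * w.2.1) ∧
      dt w0.1 w.1 = q * (w0.2.2 * w.1.2 - w0.1.2 * w.2.2) := by
    intro w hw
    obtain ⟨h1, h2, h3, -, -⟩ := hF w hw
    obtain ⟨e1, e2⟩ := rel (b := b) (c := c) h1
    obtain ⟨e3, e4⟩ := rel (b := b) (c := c) h01
    rw [h2, h3] at e1 e2
    rw [h02, h03] at e3 e4
    unfold ip dt
    constructor
    · linear_combination (-w.1.1) * e4 + w0.1.2 * e1
    · linear_combination (-w.1.2) * e4 + w0.1.2 * e2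
  have hcard : (Icc (0 : ℤ) (b + c + 1) ×ˢ Icc (-1 : ℤ) 1).card = 3 * (b + c + 2).toNat := by
    rw [card_product, Int.card_Icc, Int.card_Icc]
    have e1 : (b + c + 1 + 1 - 0 : ℤ) = b + c + 2 := by ring
    have e2 : (1 + 1 - (-1) : ℤ).toNat = 3 := by decide
    rw [e1, e2]; ring
  rw [← hcard]
  apply Finset.card_le_card_of_injOn
    (fun w => (w.1.1 * w0.2.2 - w0.1.2 * w.2.1, w0.2.2 * w.1.2 - w0.1.2 * w.2.2))
  · intro w hw
    rw [mem_coe] at hw
    obtain ⟨h1, h2, h3, h4, h5⟩ := hF w hw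
    obtain ⟨k1, k2⟩ := key w hw
    obtain ⟨a1, a2⟩ := coord_le hb hc h04 h05
    obtain ⟨a3, a4⟩ := coord_le hb hc h4 h5
    rw [h03] at a1 a2
    rw [h3] at a3 a4
    rw [mem_coe, mem_product, mem_Icc, mem_Icc]
    have i1 : 0 ≤ ip b c w0.1 w.1 := by
      unfold ip; positivity
    have i2 : ip b c w0.1 w.1 ≤ q * (b + c + 1) := by
      unfold ip
      have j1 := mul_le_q h04 h4 a1 a3
      have j2 := mul_le_q h05 h4 a2 a3
      have j3 := mul_le_q h05 h5 a2 a4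
      have j4 : b * (w0.1.2 * w.1.1) ≤ b * q := mul_le_mul_of_nonneg_left j2 hb
      have j5 : c * (w0.1.2 * w.1.2) ≤ c * q := mul_le_mul_of_nonneg_left j3 (by linarith)
      nlinarith
    have i3 : -q ≤ dt w0.1 w.1 ∧ dt w0.1 w.1 ≤ q := by
      unfold dt
      have j1 := mul_le_q h04 h5 a1 a4
      have j2 := mul_le_q h05 h4 a2 a3
      have j3 : 0 ≤ w0.1.1 * w.1.2 := mul_nonneg h04 h5
      have j4 : 0 ≤ w0.1.2 * w.1.1 := mul_nonneg h05 h4
      constructor <;> linarith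
    rw [k1] at i1 i2
    rw [k2] at i3
    refine ⟨⟨?_, ?_⟩, ?_, ?_⟩
    · exact nonneg_of_mul_nonneg_right i1 hq
    · exact le_of_mul_le_mul_left i2 hq
    · apply le_of_mul_le_mul_left _ hq
      linarith [i3.1]
    · apply le_of_mul_le_mul_left _ hq
      linarith [i3.2]
  · intro w hw w' hw' he
    rw [mem_coe] at hw hw'
    simp only [Prod.mk.injEq] at he
    obtain ⟨he1, he2⟩ := he
    obtain ⟨h1, h2, h3, -, -⟩ := hF w hw
    obtain ⟨h1', h2', h3', -, -⟩ := hF w' hw'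
    obtain ⟨k1, k2⟩ := key w hw
    obtain ⟨k1', k2'⟩ := key w' hw'
    have hB : ip b c w0.1 w.1 = ip b c w0.1 w'.1 := by rw [k1, k1', he1]
    have hD : dt w0.1 w.1 = dt w0.1 w'.1 := by rw [k2, k2', he2]
    have r1 : ∀ v : (ℤ × ℤ), q * v.1 = w0.1.1 * ip b c w0.1 v - c * w0.1.2 * dt w0.1 v := by
      intro v
      rw [← h03]; unfold qf ip dt; ring
    have r2 : ∀ v : (ℤ × ℤ), q * v.2 = w0.1.2 * ip b c w0.1 v + (w0.1.1 + b * w0.1.2) * dt w0.1 v
        - b * w0.1.2 * 0 := by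
      intro v
      rw [← h03]; unfold qf ip dt; ring
    have x1 : w.1.1 = w'.1.1 := by
      apply mul_left_cancel₀ hq.ne'
      rw [r1, r1, hB, hD]
    have x2 : w.1.2 = w'.1.2 := by
      apply mul_left_cancel₀ hq.ne'
      rw [r2, r2, hB, hD]
    obtain ⟨e1, e2⟩ := rel (b := b) (c := c) h1
    obtain ⟨e1', e2'⟩ := rel (b := b) (c := c) h1'
    rw [h2, h3] at e1 e2
    rw [h2', h3'] at e1' e2'
    have y1 : w.2.1 = w'.2.1 := by
      apply mul_left_cancel₀ hq.ne'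
      rw [e1, e1', x1, x2]
    have y2 : w.2.2 = w'.2.2 := by
      apply mul_left_cancel₀ hq.ne'
      rw [e2, e2', x1, x2]
    exact Prod.ext (Prod.ext x1 x2) (Prod.ext y1 y2)

/-- a pair of vectors in the quadrant, with determinant one -/
def PP (w : (ℤ × ℤ) × (ℤ × ℤ)) : Prop :=
  dt w.1 w.2 = 1 ∧ 0 ≤ w.1.1 ∧ 0 < w.1.2 ∧ 0 ≤ w.2.1 ∧ 0 < w.2.2

lemma PP.ip_nonneg (hb : 0 ≤ b) (hc : 1 ≤ c) {w : (ℤ × ℤ) × (ℤ × ℤ)} (h : PP w) :
    0 ≤ ip b c w.1 w.2 := by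
  obtain ⟨-, h1, h2, h3, h4⟩ := h
  unfold ip
  have := h2.le
  have := h4.le
  have : 0 ≤ c := by linarith
  positivity

/-- pairs with a given inner product -/
lemma pairs_pos (hb : 0 ≤ b) (hc : 1 ≤ c) (N : ℤ) (F : Finset ((ℤ × ℤ) × (ℤ × ℤ)))
    (hF : ∀ w ∈ F, PP w ∧ ip b c w.1 w.2 = N) :
    F.card ≤ 3 * (b + c + 2).toNat * (fm b c 1 N).toNat.divisors.card := by
  classical
  have hmap : ∀ w ∈ F, (qf b c w.1).toNat ∈ (fm b c 1 N).toNat.divisors := by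
    intro w hw
    obtain ⟨⟨h1, h2, h3, h4, h5⟩, h6⟩ := hF w hw
    have p1 := qf_pos_of hb hc h2 h3
    have p2 := qf_pos_of hb hc h4 h5
    have h7 := qf_mul_det (b := b) (c := c) h1
    rw [h6] at h7
    rw [Nat.mem_divisors]
    have h8 : 0 < fm b c 1 N := by rw [← h7]; positivity
    refine ⟨⟨(qf b c w.2).toNat, ?_⟩, by omega⟩
    rw [← h7, Int.toNat_mul p1.le p2.le]
  rw [Finset.card_eq_sum_card_fiberwise hmap]
  calc ∑ q ∈ (fm b c 1 N).toNat.divisors, (F.filter (fun w => (qf b c w.1).toNat = q)).card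
      ≤ ∑ q ∈ (fm b c 1 N).toNat.divisors, 3 * (b + c + 2).toNat := by
        apply sum_le_sum
        intro q hq
        have hq0 : 0 < q := Nat.pos_of_mem_divisors hq
        apply fiber_pos hb hc N (q : ℤ) (by exact_mod_cast hq0)
        intro w hw
        rw [mem_filter] at hw
        obtain ⟨⟨h1, h2, h3, h4, h5⟩, h6⟩ := hF w hw.1
        refine ⟨h1, h6, ?_, h2, h3.le⟩
        have := (qf_pos_of hb hc h2 h3)
        omega
    _ = 3 * (b + c + 2).toNat * (fm b c 1 N).toNat.divisors.card := by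
        rw [sum_const, smul_eq_mul, mul_comm]

/-- counting of the inner products of a family of pairs -/
lemma count_pos (hb : 0 ≤ b) (hc : 1 ≤ c) {α : Type*} (G : Finset α)
    (w : α → (ℤ × ℤ) × (ℤ × ℤ)) (hw : Set.InjOn w G) (hP : ∀ g ∈ G, PP (w g)) (S : Finset ℕ)
    (hS : ∀ g ∈ G, (ip b c (w g).1 (w g).2).toNat ∈ S) (T : ℕ)
    (hT : ∀ N ∈ S, (fm b c 1 (N : ℤ)).toNat.divisors.card ≤ T) :
    G.card ≤ 3 * (b + c + 2).toNat * T * S.card := by
  classical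
  apply Finset.card_le_mul_card_image_of_maps_to hS
  intro N hN
  have h1 : ((G.filter (fun g => (ip b c (w g).1 (w g).2).toNat = N)).image w).card ≤
      3 * (b + c + 2).toNat * (fm b c 1 (N : ℤ)).toNat.divisors.card := by
    apply pairs_pos hb hc
    intro v hv
    rw [mem_image] at hv
    obtain ⟨g, hg, rfl⟩ := hv
    rw [mem_filter] at hg
    refine ⟨hP g hg.1, ?_⟩
    have := (hP g hg.1).ip_nonneg hb hc
    omega
  rw [card_image_of_injOn (fun x hx y hy h => hw (by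
    rw [mem_coe, mem_filter] at hx; exact hx.1) (by
    rw [mem_coe, mem_filter] at hy; exact hy.1) h)] at h1
  exact h1.trans (Nat.mul_le_mul_left _ (hT N hN))

end Pool.Agent.Q91.RP
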