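import Mathlib
import Pool.Agent.H505R2.Forms
import Pool.Agent.Y887.QK.Stm

/-!
The system of three values of the form for the sieve on the modular hyperbola.
-/

set_option autoImplicit false
set_option maxHeartbeats 400000

namespace Pool.Agent.Q91.RP

open Finset Pool.Agent.H505R2 Pool.Agent.Y887.QKS

/-- the last entry of the matrix -/
def dd (Q ℓ β ν : ℕ) : ℕ := (1 + (Q * ν) * (Q * β)) / ℓ

/-- the vector with coordinates `w` in the basis `(ℓ, Q β)`, `(Q ν, d)` -/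
def zv (Q ℓ β ν : ℕ) (w : ℕ × ℕ) : ℤ × ℤ :=
  (((w.1 * ℓ + w.2 * (Q * ν) : ℕ) : ℤ), ((w.1 * (Q * β) + w.2 * dd Q ℓ β ν : ℕ) : ℤ))

/-- a small vector as an integral vector -/
def iv (w : ℕ × ℕ) : ℤ × ℤ := ((w.1 : ℤ), (w.2 : ℤ))

/-- the local conditions -/
structure Data (b c : ℤ) (Q : ℕ) (w : Fin 3 → ℕ × ℕ) (s : Fin 3 → ℕ) : Prop where
  hb : 0 ≤ b
  hc : 1 ≤ c
  Qpos : 0 < Q
  Qp : ∀ p : ℕ, p.Prime → p ∣ Q → p ≤ 12
  dvd : ∀ i, 2310 * s i ∣ Q
  val : ∀ i, ∃ m : ℤ, qf b c (iv (w i)) = s i * m ∧ ∀ p : ℕ, p.Prime → p ≤ 12 → ¬ (p : ℤ) ∣ m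
  det : (w 0).1 * (w 1).2 = (w 0).2 * (w 1).1 + 1
  sum : w 2 = w 0 + w 1
  pos : ∀ i, 0 < (w i).2

lemma dvd_2310 {p : ℕ} (hp : p.Prime) (h : p ≤ 12) : p ∣ 2310 := by
  interval_cases p <;> first | (exfalso; revert hp; norm_num; done) | (norm_num; done)

lemma facts {ℓ : ℕ} [Fact ℓ.Prime] (c0 x : (ZMod ℓ)ˣ) (Q : ℕ)
    (hQ : (c0 : ZMod ℓ) * (Q : ZMod ℓ) ^ 2 = -1) :
    0 < bv x ∧ bv x < ℓ ∧ 0 < vv c0 x ∧ vv c0 x < ℓ ∧
      ℓ * dd Q ℓ (bv x) (vv c0 x) = 1 + (Q * vv c0 x) * (Q * bv x) := by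
  have hval : ∀ u : (ZMod ℓ)ˣ, 0 < (u : ZMod ℓ).val := by
    intro u
    rw [Nat.pos_iff_ne_zero, Ne, ZMod.val_eq_zero]
    exact u.ne_zero
  refine ⟨hval x, ZMod.val_lt _, hval _, ZMod.val_lt _, ?_⟩
  unfold dd
  apply Nat.mul_div_cancel'
  rw [← ZMod.natCast_eq_zero_iff]
  push_cast
  have h1 : ((bv x : ℕ) : ZMod ℓ) = x := ZMod.natCast_zmod_val _
  have h2 : ((vv c0 x : ℕ) : ZMod ℓ) = c0 * (x⁻¹ : (ZMod ℓ)ˣ) := by
    unfold vv
    rw [ZMod.natCast_zmod_val, Units.val_mul]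
  rw [h1, h2]
  have h3 : (x : ZMod ℓ) * ((x⁻¹ : (ZMod ℓ)ˣ) : ZMod ℓ) = 1 := by
    rw [← Units.val_mul, mul_inv_cancel, Units.val_one]
  linear_combination (Q : ZMod ℓ) ^ 2 * c0 * h3 + hQ

section point

variable {Q ℓ β ν : ℕ}

lemma zv_dt (h : ℓ * dd Q ℓ β ν = 1 + (Q * ν) * (Q * β)) (w w' : ℕ × ℕ) :
    dt (zv Q ℓ β ν w) (zv Q ℓ β ν w') = (w.1 : ℤ) * w'.2 - w.2 * w'.1 := by
  have h' : (ℓ : ℤ) * dd Q ℓ β ν = 1 + (Q * ν) * (Q * β) := by exact_mod_cast h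
  unfold dt zv
  push_cast
  linear_combination ((w.1 : ℤ) * w'.2 - w.2 * w'.1) * h'

lemma zv_add (w w' : ℕ × ℕ) :
    zv Q ℓ β ν (w + w') = ((zv Q ℓ β ν w).1 + (zv Q ℓ β ν w').1,
      (zv Q ℓ β ν w).2 + (zv Q ℓ β ν w').2) := by
  unfold zv
  simp only [Prod.fst_add, Prod.snd_add]
  push_cast
  rw [Prod.mk.injEq]
  constructor <;> ring

lemma dd_pos (h : ℓ * dd Q ℓ β ν = 1 + (Q * ν) * (Q * β)) : 0 < dd Q ℓ β ν := by
  rw [Nat.pos_iff_ne_zero]
  intro h0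
  rw [h0] at h
  omega

lemma dd_le (h : ℓ * dd Q ℓ β ν = 1 + (Q * ν) * (Q * β)) (hQ : 0 < Q) (hβ : β < ℓ) (hν : ν < ℓ) :
    dd Q ℓ β ν ≤ Q ^ 2 * ℓ := by
  have hl : 0 < ℓ := by omega
  apply Nat.le_of_mul_le_mul_left _ hl
  rw [h]
  have h1 : ν * β + 1 ≤ ℓ * ℓ := by nlinarith
  have h2 : 1 ≤ Q ^ 2 := Nat.one_le_pow _ _ hQ
  calc 1 + (Q * ν) * (Q * β) = 1 + Q ^ 2 * (ν * β) := by ring
    _ ≤ Q ^ 2 * 1 + Q ^ 2 * (ν * β) := by omega
    _ = Q ^ 2 * (ν * β + 1) := by ring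
    _ ≤ Q ^ 2 * (ℓ * ℓ) := Nat.mul_le_mul_left _ h1
    _ = ℓ * (Q ^ 2 * ℓ) := by ring

lemma zv_pos (h : ℓ * dd Q ℓ β ν = 1 + (Q * ν) * (Q * β)) {w : ℕ × ℕ} (hw : 0 < w.2) :
    0 ≤ (zv Q ℓ β ν w).1 ∧ 0 < (zv Q ℓ β ν w).2 := by
  unfold zv
  have h1 := dd_pos h
  constructor
  · exact Int.natCast_nonneg _
  · have : 0 < w.2 * dd Q ℓ β ν := Nat.mul_pos hw h1
    have h2 : 0 < w.1 * (Q * β) + w.2 * dd Q ℓ β ν := by omega
    show (0 : ℤ) < ((w.1 * (Q * β) + w.2 * dd Q ℓ β ν : ℕ) : ℤ)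
    exact_mod_cast h2

lemma zv_le (h : ℓ * dd Q ℓ β ν = 1 + (Q * ν) * (Q * β)) (hQ : 0 < Q) (hβ : β < ℓ) (hν : ν < ℓ)
    (w : ℕ × ℕ) : (zv Q ℓ β ν w).1 ≤ (((w.1 + w.2) * Q ^ 2 * ℓ : ℕ) : ℤ) ∧
      (zv Q ℓ β ν w).2 ≤ (((w.1 + w.2) * Q ^ 2 * ℓ : ℕ) : ℤ) := by
  have h1 := dd_le h hQ hβ hν
  have h2 : Q ≤ Q ^ 2 := Nat.le_self_pow (by norm_num) Q
  have h3 : 1 ≤ Q ^ 2 := Nat.one_le_pow _ _ hQ
  unfold zv
  constructor
  · have : w.1 * ℓ + w.2 * (Q * ν) ≤ (w.1 + w.2) * Q ^ 2 * ℓ := by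
      calc w.1 * ℓ + w.2 * (Q * ν) ≤ w.1 * (Q ^ 2 * ℓ) + w.2 * (Q ^ 2 * ℓ) := by
            apply Nat.add_le_add
            · apply Nat.mul_le_mul_left
              nlinarith
            · apply Nat.mul_le_mul_left
              exact Nat.mul_le_mul h2 hν.le
        _ = (w.1 + w.2) * Q ^ 2 * ℓ := by ring
    show ((w.1 * ℓ + w.2 * (Q * ν) : ℕ) : ℤ) ≤ (((w.1 + w.2) * Q ^ 2 * ℓ : ℕ) : ℤ)
    exact_mod_cast this
  · have : w.1 * (Q * β) + w.2 * dd Q ℓ β ν ≤ (w.1 + w.2) * Q ^ 2 * ℓ := by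
      calc w.1 * (Q * β) + w.2 * dd Q ℓ β ν ≤ w.1 * (Q ^ 2 * ℓ) + w.2 * (Q ^ 2 * ℓ) := by
            apply Nat.add_le_add
            · apply Nat.mul_le_mul_left
              exact Nat.mul_le_mul h2 hβ.le
            · apply Nat.mul_le_mul_left
              exact h1
        _ = (w.1 + w.2) * Q ^ 2 * ℓ := by ring
    show ((w.1 * (Q * β) + w.2 * dd Q ℓ β ν : ℕ) : ℤ) ≤ (((w.1 + w.2) * Q ^ 2 * ℓ : ℕ) : ℤ)
    exact_mod_cast this

/-- congruence of the vectors -/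
lemma zv_mod (h : ℓ * dd Q ℓ β ν = 1 + (Q * ν) * (Q * β)) (hl : (Q : ℤ) ∣ (ℓ : ℤ) - 1)
    (w : ℕ × ℕ) : (Q : ℤ) ∣ (zv Q ℓ β ν w).1 - w.1 ∧ (Q : ℤ) ∣ (zv Q ℓ β ν w).2 - w.2 := by
  obtain ⟨k, hk⟩ := hl
  have h' : (ℓ : ℤ) * dd Q ℓ β ν = 1 + (Q * ν) * (Q * β) := by exact_mod_cast h
  have hd : (dd Q ℓ β ν : ℤ) - 1 = Q * (ν * (Q * β) - k * dd Q ℓ β ν) := by
    linear_combination h' - (dd Q ℓ β ν : ℤ) * hk
  unfold zv
  constructor
  · refine ⟨w.1 * k + w.2 * ν, ?_⟩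
    push_cast
    linear_combination (w.1 : ℤ) * hk
  · refine ⟨w.1 * β + w.2 * (ν * (Q * β) - k * dd Q ℓ β ν), ?_⟩
    push_cast
    linear_combination (w.2 : ℤ) * hd

lemma qf_mod (b c : ℤ) (h : ℓ * dd Q ℓ β ν = 1 + (Q * ν) * (Q * β)) (hl : (Q : ℤ) ∣ (ℓ : ℤ) - 1)
    (w : ℕ × ℕ) : (Q : ℤ) ∣ qf b c (zv Q ℓ β ν w) - qf b c (iv w) := by
  obtain ⟨⟨u, hu⟩, v, hv⟩ := zv_mod h hl w
  set z := zv Q ℓ β ν w with hz
  have e1 : z.1 = w.1 + Q * u := by linarith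
  have e2 : z.2 = w.2 + Q * v := by linarith
  unfold qf iv
  rw [e1, e2]
  refine ⟨u * (2 * w.1 + Q * u) + b * (u * w.2 + w.1 * v + Q * u * v) + c * (v * (2 * w.2 + Q * v)), ?_⟩
  ring

end point

/-! ### counting solutions modulo `p` -/

lemma quad_card {F : Type*} [Field F] [Fintype F] [DecidableEq F] (A B C : F) (hA : A ≠ 0) :
    (univ.filter (fun x : F => A * x ^ 2 + B * x + C = 0)).card ≤ 2 := by
  by_contra hcon
  push Not at hcon
  obtain ⟨r, s, t, hr, hs, ht, hrs, hrt, hst⟩ := Finset.two_lt_card_iff.1 hcon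
  rw [mem_filter] at hr hs ht
  have e1 : A * (r + s) + B = 0 := by
    have h1 : (r - s) * (A * (r + s) + B) = 0 := by linear_combination hr.2 - hs.2
    rcases mul_eq_zero.1 h1 with h | h
    · exact absurd (sub_eq_zero.1 h) hrs
    · exact h
  have e2 : A * (r + t) + B = 0 := by
    have h1 : (r - t) * (A * (r + t) + B) = 0 := by linear_combination hr.2 - ht.2
    rcases mul_eq_zero.1 h1 with h | h
    · exact absurd (sub_eq_zero.1 h) hrt
    · exact h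
  have e3 : A * (s - t) = 0 := by linear_combination e1 - e2
  rcases mul_eq_zero.1 e3 with h | h
  · exact hA h
  · exact hst (sub_eq_zero.1 h)

lemma lin_card {F : Type*} [Field F] [Fintype F] [DecidableEq F] (A B : F) (hA : A ≠ 0) :
    (univ.filter (fun x : F => A * x + B = 0)).card ≤ 1 := by
  rw [card_le_one]
  intro r hr s hs
  rw [mem_filter] at hr hs
  have h1 : A * (r - s) = 0 := by linear_combination hr.2 - hs.2
  rcases mul_eq_zero.1 h1 with h | h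
  · exact absurd h hA
  · exact sub_eq_zero.1 h

lemma om_card {F : Type*} [Field F] [Fintype F] [DecidableEq F] (b c lam Q w1 w2 : F) (hl : lam ≠ 0)
    (hQ : Q ≠ 0) (hw : w1 ≠ 0 ∨ w2 ≠ 0) :
    (univ.filter (fun z : F × F =>
      (lam * (w1 * lam + w2 * Q * z.2)) ^ 2 +
        b * (lam * (w1 * lam + w2 * Q * z.2)) * (Q * (w1 * lam + w2 * Q * z.2) * z.1 + w2) +
        c * (Q * (w1 * lam + w2 * Q * z.2) * z.1 + w2) ^ 2 = 0)).card ≤ 2 * Fintype.card F := by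
  classical
  set S := univ.filter (fun z : F × F =>
      (lam * (w1 * lam + w2 * Q * z.2)) ^ 2 +
        b * (lam * (w1 * lam + w2 * Q * z.2)) * (Q * (w1 * lam + w2 * Q * z.2) * z.1 + w2) +
        c * (Q * (w1 * lam + w2 * Q * z.2) * z.1 + w2) ^ 2 = 0) with hS
  have hsum : S.card = ∑ ν : F, (S.filter (fun z => z.2 = ν)).card :=
    card_eq_sum_card_fiberwise (fun _ _ => mem_univ _)
  -- the fibre as a set of first coordinates
  have hfib : ∀ ν : F, (S.filter (fun z => z.2 = ν)).card ≤ (univ.filter (fun β : F =>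
      (lam * (w1 * lam + w2 * Q * ν)) ^ 2 +
        b * (lam * (w1 * lam + w2 * Q * ν)) * (Q * (w1 * lam + w2 * Q * ν) * β + w2) +
        c * (Q * (w1 * lam + w2 * Q * ν) * β + w2) ^ 2 = 0)).card := by
    intro ν
    apply card_le_card_of_injOn (fun z => z.1)
    · intro z hz
      rw [mem_coe, mem_filter, hS, mem_filter] at hz
      rw [mem_coe, mem_filter]
      refine ⟨mem_univ _, ?_⟩
      rw [← hz.2]
      exact hz.1.2
    · intro z hz z' hz' h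
      rw [mem_coe, mem_filter] at hz hz'
      exact Prod.ext h (hz.2.trans hz'.2.symm)
  by_cases hc : c = 0
  · -- linear case
    have h1 : ∀ ν : F, (S.filter (fun z => z.2 = ν)).card ≤
        (if w1 * lam + w2 * Q * ν = 0 then Fintype.card F else 1) := by
      intro ν
      refine (hfib ν).trans ?_
      split_ifs with h0
      · exact card_le_univ _
      · by_cases hb : b = 0
        · refine le_trans (le_of_eq ?_) zero_le_one
          rw [card_eq_zero, filter_eq_empty_iff]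
          intro β _ h2
          rw [hc, hb] at h2
          have h3 : (lam * (w1 * lam + w2 * Q * ν)) ^ 2 = 0 := by linear_combination h2
          exact mul_ne_zero hl h0 (pow_eq_zero_iff (two_ne_zero) |>.1 h3)
        · refine le_trans (card_le_card ?_) (lin_card (b * (Q * (w1 * lam + w2 * Q * ν)))
            (lam * (w1 * lam + w2 * Q * ν) + b * w2) (mul_ne_zero hb (mul_ne_zero hQ h0)))
          intro β hβ
          rw [mem_filter] at hβ ⊢
          refine ⟨mem_univ _, ?_⟩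
          have h2 := hβ.2
          rw [hc] at h2
          have h3 : (lam * (w1 * lam + w2 * Q * ν)) *
            (b * (Q * (w1 * lam + w2 * Q * ν)) * β + (lam * (w1 * lam + w2 * Q * ν) + b * w2)) = 0 := by
            linear_combination h2
          rcases mul_eq_zero.1 h3 with h | h
          · exact absurd h (mul_ne_zero hl h0)
          · exact h
    have h2 : (univ.filter (fun ν : F => w1 * lam + w2 * Q * ν = 0)).card ≤ 1 := by
      by_cases hw2 : w2 = 0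
      · refine le_trans (le_of_eq ?_) zero_le_one
        rw [card_eq_zero, filter_eq_empty_iff]
        intro ν _ h3
        rw [hw2] at h3
        have h4 : w1 * lam = 0 := by linear_combination h3
        rcases mul_eq_zero.1 h4 with h | h
        · rcases hw with h5 | h5
          · exact h5 h
          · exact h5 hw2
        · exact hl h
      · refine le_trans (card_le_card ?_) (lin_card (w2 * Q) (w1 * lam) (mul_ne_zero hw2 hQ))
        intro ν hν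
        rw [mem_filter] at hν ⊢
        refine ⟨mem_univ _, ?_⟩
        linear_combination hν.2
    rw [hsum]
    refine (sum_le_sum fun ν _ => h1 ν).trans ?_
    have h3 : ∑ ν : F, (if w1 * lam + w2 * Q * ν = 0 then Fintype.card F else 1) ≤
        ∑ ν : F, ((if w1 * lam + w2 * Q * ν = 0 then Fintype.card F else 0) + 1) := by
      apply sum_le_sum
      intro ν _
      split_ifs <;> omega
    refine h3.trans ?_
    rw [sum_add_distrib, ← sum_filter, sum_const, sum_const, smul_eq_mul, smul_eq_mul, mul_one,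
      card_univ]
    have h4 := Nat.mul_le_mul_right (Fintype.card F) h2
    omega
  · have h1 : ∀ ν : F, (S.filter (fun z => z.2 = ν)).card ≤ 2 := by
      intro ν
      refine (hfib ν).trans ?_
      by_cases h0 : w1 * lam + w2 * Q * ν = 0
      · refine le_trans (le_of_eq ?_) zero_le_two
        rw [card_eq_zero, filter_eq_empty_iff]
        intro β _ h2
        rw [h0] at h2
        have h3 : c * w2 ^ 2 = 0 := by linear_combination h2
        have h4 : w2 = 0 := by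
          rcases mul_eq_zero.1 h3 with h | h
          · exact absurd h hc
          · exact pow_eq_zero_iff (two_ne_zero) |>.1 h
        rw [h4] at h0
        have h5 : w1 * lam = 0 := by linear_combination h0
        rcases mul_eq_zero.1 h5 with h | h
        · rcases hw with h6 | h6
          · exact h6 h
          · exact h6 h4
        · exact hl h
      · set μ := w1 * lam + w2 * Q * ν with hμ
        refine le_trans (card_le_card ?_) (quad_card (c * (Q * μ) ^ 2)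
          (b * (lam * μ) * (Q * μ) + 2 * c * (Q * μ) * w2)
          ((lam * μ) ^ 2 + b * (lam * μ) * w2 + c * w2 ^ 2)
          (mul_ne_zero hc (pow_ne_zero _ (mul_ne_zero hQ h0))))
        intro β hβ
        rw [mem_filter] at hβ ⊢
        refine ⟨mem_univ _, ?_⟩
        linear_combination hβ.2
    rw [hsum]
    refine (sum_le_sum fun ν _ => h1 ν).trans ?_
    rw [sum_const, card_univ, smul_eq_mul, mul_comm]

open Classical in
/-- the pairs of classes for which a prime divides the value of the form at the vector `w` -/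
noncomputable def Om (b c : ℤ) (Q ℓ : ℕ) (w : ℕ × ℕ) (p : ℕ) : Finset (ZMod p × ZMod p) :=
  if h : 12 < p then
    haveI : NeZero p := ⟨by omega⟩
    univ.filter (fun z : ZMod p × ZMod p =>
      ((ℓ : ZMod p) * ((w.1 : ZMod p) * ℓ + (w.2 : ZMod p) * Q * z.2)) ^ 2 +
        (b : ZMod p) * ((ℓ : ZMod p) * ((w.1 : ZMod p) * ℓ + (w.2 : ZMod p) * Q * z.2)) *
          ((Q : ZMod p) * ((w.1 : ZMod p) * ℓ + (w.2 : ZMod p) * Q * z.2) * z.1 + (w.2 : ZMod p)) +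
        (c : ZMod p) *
          ((Q : ZMod p) * ((w.1 : ZMod p) * ℓ + (w.2 : ZMod p) * Q * z.2) * z.1 + (w.2 : ZMod p)) ^ 2
        = 0)
  else ∅

lemma mem_Om {b c : ℤ} {Q ℓ p : ℕ} {w : ℕ × ℕ} (hp : 12 < p) (z : ZMod p × ZMod p) :
    z ∈ Om b c Q ℓ w p ↔
      ((ℓ : ZMod p) * ((w.1 : ZMod p) * ℓ + (w.2 : ZMod p) * Q * z.2)) ^ 2 +
        (b : ZMod p) * ((ℓ : ZMod p) * ((w.1 : ZMod p) * ℓ + (w.2 : ZMod p) * Q * z.2)) *
          ((Q : ZMod p) * ((w.1 : ZMod p) * ℓ + (w.2 : ZMod p) * Q * z.2) * z.1 + (w.2 : ZMod p)) +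
        (c : ZMod p) *
          ((Q : ZMod p) * ((w.1 : ZMod p) * ℓ + (w.2 : ZMod p) * Q * z.2) * z.1 + (w.2 : ZMod p)) ^ 2
        = 0 := by
  unfold Om
  rw [dif_pos hp, mem_filter]
  simp

lemma Om_small {b c : ℤ} {Q ℓ p : ℕ} {w : ℕ × ℕ} (hp : p ≤ 12) : Om b c Q ℓ w p = ∅ := by
  unfold Om
  rw [dif_neg (by omega)]

lemma Om_card {b c : ℤ} {Q ℓ p : ℕ} {w : ℕ × ℕ} (hp : p.Prime) (hl : ¬ p ∣ ℓ) (hQ : ¬ p ∣ Q)
    (hw : ¬ (p ∣ w.1 ∧ p ∣ w.2)) : (Om b c Q ℓ w p).card ≤ 2 * p := by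
  classical
  by_cases h : 12 < p
  · have : Fact p.Prime := ⟨hp⟩
    have h1 := om_card (F := ZMod p) (b : ZMod p) (c : ZMod p) (ℓ : ZMod p) (Q : ZMod p)
      (w.1 : ZMod p) (w.2 : ZMod p) (by rwa [Ne, ZMod.natCast_eq_zero_iff])
      (by rwa [Ne, ZMod.natCast_eq_zero_iff]) (by
        rw [Ne, Ne, ZMod.natCast_eq_zero_iff, ZMod.natCast_eq_zero_iff]
        tauto)
    rw [ZMod.card] at h1
    refine le_trans (card_le_card ?_) h1
    intro z hz
    rw [mem_Om h] at hz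
    rw [mem_filter]
    exact ⟨mem_univ _, hz⟩
  · rw [Om_small (by omega)]
    simp

/-- divisibility of the value of the form -/
lemma dvd_iff {b c : ℤ} {Q ℓ β ν p : ℕ} (h : ℓ * dd Q ℓ β ν = 1 + (Q * ν) * (Q * β))
    (hp : p.Prime) (h12 : 12 < p) (hl : ¬ p ∣ ℓ) (w : ℕ × ℕ) :
    (p : ℤ) ∣ qf b c (zv Q ℓ β ν w) ↔ ((β : ZMod p), (ν : ZMod p)) ∈ Om b c Q ℓ w p := by
  have : Fact p.Prime := ⟨hp⟩
  rw [mem_Om h12]
  have hl' : ((ℓ : ℕ) : ZMod p) ≠ 0 := by rwa [Ne, ZMod.natCast_eq_zero_iff]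
  have h' : ((ℓ : ℕ) : ZMod p) * dd Q ℓ β ν = 1 + (Q * ν) * (Q * β) := by
    exact_mod_cast congrArg (Nat.cast : ℕ → ZMod p) h
  rw [← ZMod.intCast_zmod_eq_zero_iff_dvd]
  have key : ((ℓ : ℕ) : ZMod p) ^ 2 * ((qf b c (zv Q ℓ β ν w) : ℤ) : ZMod p) =
      ((ℓ : ZMod p) * ((w.1 : ZMod p) * ℓ + (w.2 : ZMod p) * Q * ν)) ^ 2 +
        (b : ZMod p) * ((ℓ : ZMod p) * ((w.1 : ZMod p) * ℓ + (w.2 : ZMod p) * Q * ν)) *
          ((Q : ZMod p) * ((w.1 : ZMod p) * ℓ + (w.2 : ZMod p) * Q * ν) * β + (w.2 : ZMod p)) +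
        (c : ZMod p) *
          ((Q : ZMod p) * ((w.1 : ZMod p) * ℓ + (w.2 : ZMod p) * Q * ν) * β + (w.2 : ZMod p)) ^ 2 := by
    have e2 : ((ℓ : ℕ) : ZMod p) * ((w.1 : ZMod p) * (Q * β) + (w.2 : ZMod p) * dd Q ℓ β ν) =
        (Q : ZMod p) * ((w.1 : ZMod p) * ℓ + (w.2 : ZMod p) * Q * ν) * β + (w.2 : ZMod p) := by
      linear_combination (w.2 : ZMod p) * h'
    unfold qf zv
    push_cast
    rw [← e2]
    ring
  simp only
  rw [← key]
  constructor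
  · intro h0; rw [h0, mul_zero]
  · intro h0
    rcases mul_eq_zero.1 h0 with h1 | h1
    · exact absurd h1 (pow_ne_zero _ hl')
    · exact h1

end Pool.Agent.Q91.RP
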