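import Mathlib
import Pool.Agent.Q91.RP.Sys
import Pool.Agent.Q91.RP.Geo

/-!
Values of the form at the three vectors attached to a point of the modular hyperbola.
-/

set_option autoImplicit false
set_option maxHeartbeats 400000

namespace Pool.Agent.Q91.RP

open Finset Pool.Agent.H505R2 Pool.Agent.Y887.QKS

/-- value of the form at a vector, without the fixed factor -/
def vl (b c : ℤ) (Q : ℕ) (w : Fin 3 → ℕ × ℕ) (s : Fin 3 → ℕ) (i : Fin 3) (ℓ β ν : ℕ) : ℕ :=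
  (qf b c (zv Q ℓ β ν (w i))).toNat / s i

variable {b c : ℤ} {Q : ℕ} {w : Fin 3 → ℕ × ℕ} {s : Fin 3 → ℕ}

/-- a point of the modular hyperbola for a prime `≡ 1` modulo `Q` -/
structure Pt (Q ℓ β ν : ℕ) : Prop where
  pr : ℓ.Prime
  md : (Q : ℤ) ∣ (ℓ : ℤ) - 1
  hb : β < ℓ
  hn : ν < ℓ
  hd : ℓ * dd Q ℓ β ν = 1 + (Q * ν) * (Q * β)

lemma Data.spos (D : Data b c Q w s) (i : Fin 3) : 0 < s i := by
  have h1 := D.dvd i
  have h2 := D.Qpos
  rcases Nat.eq_zero_or_pos (s i) with h | h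
  · rw [h, mul_zero, zero_dvd_iff] at h1
    omega
  · exact h

lemma Data.vl_spec (D : Data b c Q w s) {ℓ β ν : ℕ} (P : Pt Q ℓ β ν) (i : Fin 3) :
    qf b c (zv Q ℓ β ν (w i)) = (s i : ℤ) * (vl b c Q w s i ℓ β ν : ℤ) ∧
      0 < vl b c Q w s i ℓ β ν ∧ ∀ p : ℕ, p.Prime → p ≤ 12 → ¬ p ∣ vl b c Q w s i ℓ β ν := by
  have hz := zv_pos (Q := Q) P.hd (D.pos i)
  have h1 : 0 < qf b c (zv Q ℓ β ν (w i)) := qf_pos_of D.hb D.hc hz.1 hz.2
  obtain ⟨r, hr⟩ := qf_mod b c P.hd P.md (w i)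
  obtain ⟨m, hm, hm'⟩ := D.val i
  obtain ⟨q, hq⟩ := D.dvd i
  have hs := D.spos i
  have hs' : (0 : ℤ) < s i := by exact_mod_cast hs
  have hq' : (Q : ℤ) = 2310 * s i * q := by exact_mod_cast hq
  have h3 : qf b c (zv Q ℓ β ν (w i)) = (s i : ℤ) * (m + 2310 * q * r) := by
    rw [hq'] at hr
    linear_combination hr + hm
  have h4 : 0 < m + 2310 * q * r := by
    rw [h3] at h1
    exact (mul_pos_iff_of_pos_left hs').1 h1
  have h5 : (vl b c Q w s i ℓ β ν : ℤ) = m + 2310 * q * r := by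
    unfold vl
    rw [h3, Int.toNat_mul hs'.le h4.le, Int.toNat_natCast, Nat.mul_div_cancel_left _ hs]
    exact Int.toNat_of_nonneg h4.le
  refine ⟨by rw [h3, h5], by omega, ?_⟩
  intro p hp h12 hd
  apply hm' p hp h12
  have h6 : (p : ℤ) ∣ m + 2310 * q * r := by rw [← h5]; exact_mod_cast hd
  have h7 : (p : ℤ) ∣ 2310 * q * r := by
    have : (p : ℤ) ∣ 2310 := by exact_mod_cast dvd_2310 hp h12
    exact (this.mul_right _).mul_right _
  exact (dvd_add_left h7).1 h6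

/-- size of the form -/
lemma qf_le (hb : 0 ≤ b) (hc : 1 ≤ c) {x : ℤ × ℤ} {M : ℤ} (h1 : 0 ≤ x.1) (h2 : 0 ≤ x.2)
    (h3 : x.1 ≤ M) (h4 : x.2 ≤ M) : qf b c x ≤ (1 + b + c) * M ^ 2 := by
  unfold qf
  have e1 : x.1 ^ 2 ≤ M ^ 2 := by gcongr
  have e2 : x.2 ^ 2 ≤ M ^ 2 := by gcongr
  have e3 : x.1 * x.2 ≤ M ^ 2 := by
    rw [sq]; gcongr
    exact h1.trans h3
  have e4 : b * (x.1 * x.2) ≤ b * M ^ 2 := mul_le_mul_of_nonneg_left e3 hb
  have e5 : c * x.2 ^ 2 ≤ c * M ^ 2 := mul_le_mul_of_nonneg_left e2 (by linarith)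
  nlinarith

lemma ip_le (hb : 0 ≤ b) (hc : 1 ≤ c) {x y : ℤ × ℤ} {M : ℤ} (h1 : 0 ≤ x.1) (_ : 0 ≤ x.2)
    (h3 : x.1 ≤ M) (h4 : x.2 ≤ M) (k1 : 0 ≤ y.1) (k2 : 0 ≤ y.2)
    (k3 : y.1 ≤ M) (k4 : y.2 ≤ M) : ip b c x y ≤ (1 + b + c) * M ^ 2 := by
  have hM := h1.trans h3
  unfold ip
  have e1 : x.1 * y.1 ≤ M ^ 2 := by rw [sq]; gcongr
  have e2 : x.2 * y.1 ≤ M ^ 2 := by rw [sq]; gcongr
  have e3 : x.2 * y.2 ≤ M ^ 2 := by rw [sq]; gcongr
  have e4 : b * (x.2 * y.1) ≤ b * M ^ 2 := mul_le_mul_of_nonneg_left e2 hb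
  have e5 : c * (x.2 * y.2) ≤ c * M ^ 2 := mul_le_mul_of_nonneg_left e3 (by linarith)
  nlinarith

/-- the size constant -/
def cc (b c : ℤ) (Q : ℕ) (w : Fin 3 → ℕ × ℕ) : ℕ :=
  (1 + b + c).toNat * (((w 2).1 + (w 2).2) * Q ^ 2) ^ 2

lemma Data.w_le (D : Data b c Q w s) (i : Fin 3) : (w i).1 + (w i).2 ≤ (w 2).1 + (w 2).2 := by
  have h := D.sum
  have h1 : (w 2).1 = (w 0).1 + (w 1).1 := by rw [h]; rfl
  have h2 : (w 2).2 = (w 0).2 + (w 1).2 := by rw [h]; rfl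
  fin_cases i <;> simp <;> omega

lemma Data.zv_bd (D : Data b c Q w s) {ℓ β ν : ℕ} (P : Pt Q ℓ β ν) (i : Fin 3) :
    0 ≤ (zv Q ℓ β ν (w i)).1 ∧ 0 < (zv Q ℓ β ν (w i)).2 ∧
    (zv Q ℓ β ν (w i)).1 ≤ ((((w 2).1 + (w 2).2) * Q ^ 2 * ℓ : ℕ) : ℤ) ∧
    (zv Q ℓ β ν (w i)).2 ≤ ((((w 2).1 + (w 2).2) * Q ^ 2 * ℓ : ℕ) : ℤ) := by
  have hz := zv_pos (Q := Q) P.hd (D.pos i)
  have hl := zv_le P.hd D.Qpos P.hb P.hn (w i)
  have h1 : (((w i).1 + (w i).2) * Q ^ 2 * ℓ : ℕ) ≤ ((w 2).1 + (w 2).2) * Q ^ 2 * ℓ := by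
    apply Nat.mul_le_mul_right
    apply Nat.mul_le_mul_right
    exact D.w_le i
  have h2 : ((((w i).1 + (w i).2) * Q ^ 2 * ℓ : ℕ) : ℤ) ≤
    ((((w 2).1 + (w 2).2) * Q ^ 2 * ℓ : ℕ) : ℤ) := by exact_mod_cast h1
  exact ⟨hz.1, hz.2, hl.1.trans h2, hl.2.trans h2⟩

lemma Data.vl_le (D : Data b c Q w s) {ℓ β ν : ℕ} (P : Pt Q ℓ β ν) (i : Fin 3) :
    vl b c Q w s i ℓ β ν ≤ cc b c Q w * ℓ ^ 2 := by
  obtain ⟨h1, h2, h3, h4⟩ := D.zv_bd P i
  have h5 := qf_le D.hb D.hc h1 h2.le h3 h4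
  have h6 : (qf b c (zv Q ℓ β ν (w i))).toNat ≤ cc b c Q w * ℓ ^ 2 := by
    rw [Int.toNat_le]
    refine h5.trans (le_of_eq ?_)
    unfold cc
    have h7 : (((1 + b + c).toNat : ℕ) : ℤ) = 1 + b + c := Int.toNat_of_nonneg (by
      have := D.hb
      have := D.hc
      linarith)
    push_cast
    rw [h7]
    ring
  exact (Nat.div_le_self _ _).trans h6

lemma Data.ip_bd (D : Data b c Q w s) {ℓ β ν : ℕ} (P : Pt Q ℓ β ν) (i j : Fin 3) :
    0 < ip b c (zv Q ℓ β ν (w i)) (zv Q ℓ β ν (w j)) ∧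
    (ip b c (zv Q ℓ β ν (w i)) (zv Q ℓ β ν (w j))).toNat ≤ cc b c Q w * ℓ ^ 2 := by
  obtain ⟨h1, h2, h3, h4⟩ := D.zv_bd P i
  obtain ⟨k1, k2, k3, k4⟩ := D.zv_bd P j
  have hb := D.hb
  have hc := D.hc
  constructor
  · unfold ip
    have e1 := mul_nonneg h1 k1
    have e2 := mul_nonneg hb (mul_nonneg h2.le k1)
    have e3 := mul_pos (mul_pos (by linarith : (0:ℤ) < c) h2) k2
    nlinarith
  · have h5 := ip_le D.hb D.hc h1 h2.le h3 h4 k1 k2.le k3 k4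
    rw [Int.toNat_le]
    refine h5.trans (le_of_eq ?_)
    unfold cc
    have h7 : (((1 + b + c).toNat : ℕ) : ℤ) = 1 + b + c := Int.toNat_of_nonneg (by linarith)
    push_cast
    rw [h7]
    ring

/-- the vectors are primitive -/
lemma Data.prim (D : Data b c Q w s) (i : Fin 3) {p : ℕ} (hp : p.Prime) :
    ¬ (p ∣ (w i).1 ∧ p ∣ (w i).2) := by
  intro ⟨h1, h2⟩
  have hd := D.det
  have h := D.sum
  have e1 : (w 2).1 = (w 0).1 + (w 1).1 := by rw [h]; rfl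
  have e2 : (w 2).2 = (w 0).2 + (w 1).2 := by rw [h]; rfl
  apply hp.one_lt.ne'
  rw [← Nat.dvd_one]
  fin_cases i
  · simp only [Fin.zero_eta] at h1 h2
    have h3 : p ∣ (w 0).2 * (w 1).1 + 1 := by rw [← hd]; exact h1.mul_right _
    exact (Nat.dvd_add_right (h2.mul_right _)).1 h3
  · simp only [Fin.mk_one] at h1 h2
    have h3 : p ∣ (w 0).2 * (w 1).1 + 1 := by rw [← hd]; exact h2.mul_left _
    exact (Nat.dvd_add_right (h1.mul_left _)).1 h3
  · simp only [Fin.reduceFinMk] at h1 h2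
    have h3 : (w 2).1 * (w 1).2 = (w 2).2 * (w 1).1 + 1 := by
      rw [e1, e2, add_mul, add_mul, hd]; ring
    have h4 : p ∣ (w 2).2 * (w 1).1 + 1 := by rw [← h3]; exact h1.mul_right _
    exact (Nat.dvd_add_right (h2.mul_right _)).1 h4

lemma s_small (D : Data b c Q w s) (i : Fin 3) {p : ℕ} (hp : p.Prime) (h : p ∣ s i) : p ≤ 12 :=
  D.Qp p hp (h.trans ((Dvd.intro_left 2310 rfl).trans (D.dvd i)))

/-- the system for the sieve -/
lemma Data.sys (D : Data b c Q w s) {ℓ : ℕ} [hF : Fact ℓ.Prime] (c0 : (ZMod ℓ)ˣ)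
    (hQ : (c0 : ZMod ℓ) * (Q : ZMod ℓ) ^ 2 = -1) (hmod : (Q : ℤ) ∣ (ℓ : ℤ) - 1)
    (hsize : cc b c Q w ≤ ℓ) :
    Sys ℓ c0 3 3 (Fin 3) (fun i x => vl b c Q w s i ℓ (bv x) (vv c0 x))
      (fun i p => if p < ℓ then Om b c Q ℓ (w i) p else ∅) := by
  have hP : ∀ x : (ZMod ℓ)ˣ, Pt Q ℓ (bv x) (vv c0 x) := by
    intro x
    obtain ⟨-, h2, -, h4, h5⟩ := facts c0 x Q hQ
    exact ⟨hF.out, hmod, h2, h4, h5⟩
  refine ⟨by simp, by norm_num, ?_, ?_, ?_, ?_⟩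
  · intro i p hp hlt x
    rw [if_pos hlt]
    obtain ⟨h1, h2, h3⟩ := D.vl_spec (hP x) i
    by_cases h12 : p ≤ 12
    · rw [Om_small h12]
      constructor
      · intro h; exact absurd h (h3 p hp h12)
      · intro h; simp at h
    · push Not at h12
      have hl : ¬ p ∣ ℓ := by
        intro h
        rw [Nat.prime_dvd_prime_iff_eq hp hF.out] at h
        omega
      rw [← dvd_iff (b := b) (c := c) (hP x).hd hp h12 hl (w i), h1]
      constructor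
      · intro h
        exact (Int.natCast_dvd_natCast.2 h).mul_left _
      · intro h
        rw [← Nat.cast_mul, Int.natCast_dvd_natCast] at h
        rcases (Nat.Prime.dvd_mul hp).1 h with h | h
        · have := s_small D i hp h
          omega
        · exact h
  · intro i p hp
    split_ifs with hlt
    · by_cases h12 : p ≤ 12
      · rw [Om_small h12]; simp
      · apply Om_card hp
        · intro h
          rw [Nat.prime_dvd_prime_iff_eq hp hF.out] at h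
          omega
        · intro h
          exact h12 (D.Qp p hp h)
        · exact D.prim i hp
    · simp
  · intro i p hp h
    split_ifs
    · exact Om_small (by omega)
    · rfl
  · intro i x
    refine ⟨(D.vl_spec (hP x) i).2.1, (D.vl_le (hP x) i).trans ?_⟩
    calc cc b c Q w * ℓ ^ 2 ≤ ℓ * ℓ ^ 2 := Nat.mul_le_mul_right _ hsize
      _ = ℓ ^ 3 := by ring

/-! ### number of prime factors -/

lemma big_len {ℓ K : ℕ} : ∀ (L : List ℕ), (∀ p ∈ L, ℓ < p ^ K) → ℓ ^ L.length ≤ L.prod ^ K := by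
  intro L
  induction L with
  | nil => intro _; simp
  | cons a L ih =>
    intro h
    rw [List.length_cons, List.prod_cons, mul_pow, pow_succ, mul_comm]
    apply Nat.mul_le_mul
    · exact (h a (List.mem_cons_self)).le
    · exact ih (fun p hp => h p (List.mem_cons_of_mem _ hp))

lemma len_le {ℓ K n E : ℕ} (hl : 2 ≤ ℓ) (hn : n ≠ 0) (h : ∀ p : ℕ, p.Prime → p ∣ n → ℓ < p ^ K)
    (hs : n ≤ ℓ ^ E) : n.primeFactorsList.length ≤ E * K := by
  have h1 := big_len (ℓ := ℓ) (K := K) n.primeFactorsList (fun p hp =>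
    h p (Nat.prime_of_mem_primeFactorsList hp) (Nat.dvd_of_mem_primeFactorsList hp))
  rw [Nat.prod_primeFactorsList hn] at h1
  have h2 : ℓ ^ n.primeFactorsList.length ≤ ℓ ^ (E * K) := by
    rw [pow_mul]
    exact h1.trans (Nat.pow_le_pow_left hs K)
  exact (Nat.pow_le_pow_iff_right (by omega)).1 h2

lemma card_div_le (n : ℕ) (hn : n ≠ 0) : n.divisors.card ≤ 2 ^ n.primeFactorsList.length := by
  rw [Nat.card_divisors hn]
  have h1 : n.primeFactorsList.length = ∑ p ∈ n.primeFactors, n.factorization p := by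
    rw [← ArithmeticFunction.cardFactors_apply, ArithmeticFunction.cardFactors_eq_sum_factorization]
    rfl
  rw [h1, ← Finset.prod_pow_eq_pow_sum]
  apply Finset.prod_le_prod'
  intro p _
  exact Nat.lt_two_pow_self

lemma len_mul {m n : ℕ} (hm : m ≠ 0) (hn : n ≠ 0) :
    (m * n).primeFactorsList.length = m.primeFactorsList.length + n.primeFactorsList.length := by
  rw [← ArithmeticFunction.cardFactors_apply, ← ArithmeticFunction.cardFactors_apply,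
    ← ArithmeticFunction.cardFactors_apply, ArithmeticFunction.cardFactors_mul hm hn]

end Pool.Agent.Q91.RP
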