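import Mathlib
import Pool.Agent.Q91.RP.Sys

/-!
The choice of the small vectors.
-/

set_option autoImplicit false
set_option maxHeartbeats 400000

namespace Pool.Agent.Q91.RP

open Finset Pool.Agent.H505R2

/-- coprime to `2310` -/
def Cop (x : ℤ) : Prop := ¬ (2 : ℤ) ∣ x ∧ ¬ (3 : ℤ) ∣ x ∧ ¬ (5 : ℤ) ∣ x ∧ ¬ (7 : ℤ) ∣ x ∧ ¬ (11 : ℤ) ∣ x

lemma Cop.all {x : ℤ} (h : Cop x) : ∀ p : ℕ, p.Prime → p ≤ 12 → ¬ (p : ℤ) ∣ x := by
  intro p hp h12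
  obtain ⟨h2, h3, h5, h7, h11⟩ := h
  interval_cases p <;> first | (exfalso; revert hp; norm_num; done) | (push_cast; assumption)

/-- the value at the second vector -/
def gg (b c : ℤ) (j t : ℤ) : ℤ := (j ^ 2 + b * j + c) * t ^ 2 - (2 * j + b) * t + 1

lemma data_of {b c : ℤ} (hb : 0 ≤ b) (hc : 1 ≤ c) {j t s : ℕ} (hj : 1 ≤ j) (ht : 1 ≤ t)
    (hs : 0 < s) (hsp : ∀ p : ℕ, p.Prime → p ∣ s → p ≤ 12) (h0 : Cop ((j : ℤ) ^ 2 + b * j + c))
    (h1 : Cop (gg b c j t)) {m : ℤ} (hm : gg b c j (t + 1) = s * m) (h2 : Cop m) :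
    Data b c (2310 * s) ![(j, 1), (j * t - 1, t), (j * (t + 1) - 1, t + 1)] ![1, 1, s] := by
  have hjt : 1 ≤ j * t := Nat.mul_pos hj ht
  have hjt' : 1 ≤ j * (t + 1) := Nat.mul_pos hj (by omega)
  have e1 : ((j * t - 1 : ℕ) : ℤ) = j * t - 1 := by rw [Nat.cast_sub hjt]; push_cast; ring
  have e2 : ((j * (t + 1) - 1 : ℕ) : ℤ) = j * (t + 1) - 1 := by rw [Nat.cast_sub hjt']; push_cast; ring
  refine ⟨hb, hc, by positivity, ?_, ?_, ?_, ?_, ?_, ?_⟩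
  · intro p hp hd
    rcases (Nat.Prime.dvd_mul hp).1 hd with h | h
    · have h3 : p ∈ Nat.primeFactors 2310 := by
        rw [Nat.mem_primeFactors]; exact ⟨hp, h, by norm_num⟩
      have h4 : Nat.primeFactors 2310 = {2, 3, 5, 7, 11} := by
        have : (2310 : ℕ) = 2 * 3 * 5 * 7 * 11 := by norm_num
        rw [this, Nat.primeFactors_mul (by norm_num) (by norm_num),
          Nat.primeFactors_mul (by norm_num) (by norm_num),
          Nat.primeFactors_mul (by norm_num) (by norm_num),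
          Nat.primeFactors_mul (by norm_num) (by norm_num),
          Nat.Prime.primeFactors (by norm_num), Nat.Prime.primeFactors (by norm_num),
          Nat.Prime.primeFactors (by norm_num), Nat.Prime.primeFactors (by norm_num),
          Nat.Prime.primeFactors (by norm_num)]
        decide
      rw [h4] at h3
      simp only [mem_insert, mem_singleton] at h3
      omega
    · exact hsp p hp h
  · intro i
    fin_cases i
    · exact Nat.mul_dvd_mul_left _ (one_dvd _)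
    · exact Nat.mul_dvd_mul_left _ (one_dvd _)
    · exact dvd_refl _
  · intro i
    fin_cases i
    · refine ⟨(j : ℤ) ^ 2 + b * j + c, ?_, h0.all⟩
      simp [qf, iv]
    · refine ⟨gg b c j t, ?_, h1.all⟩
      simp only [Fin.mk_one, Matrix.cons_val_one, Matrix.cons_val_zero, qf, iv, gg, Nat.cast_one,
        one_mul]
      rw [e1]
      ring
    · refine ⟨m, ?_, h2.all⟩
      simp only [Fin.reduceFinMk, Matrix.cons_val, qf, iv]
      rw [← hm, e2]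
      push_cast
      unfold gg
      ring
  · simp only [Matrix.cons_val_zero, Matrix.cons_val_one, one_mul]
    omega
  · simp only [Matrix.cons_val_zero, Matrix.cons_val_one, Matrix.cons_val]
    refine Prod.ext ?_ ?_
    · show j * (t + 1) - 1 = j + (j * t - 1)
      rw [mul_add, mul_one]
      omega
    · show t + 1 = 1 + t
      ring
  · intro i
    fin_cases i
    · show 0 < 1
      norm_num
    · show 0 < t
      omega
    · show 0 < t + 1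
      omega

lemma crt5 (a2 a9 a5 a7 a11 : ℕ) : ∃ n : ℕ, 1 ≤ n ∧ n ≡ a2 [MOD 2] ∧ n ≡ a9 [MOD 9] ∧
    n ≡ a5 [MOD 5] ∧ n ≡ a7 [MOD 7] ∧ n ≡ a11 [MOD 11] := by
  refine ⟨3465 * a2 + 1540 * a9 + 1386 * a5 + 4950 * a7 + 2520 * a11 + 6930, by omega, ?_, ?_, ?_,
    ?_, ?_⟩ <;> unfold Nat.ModEq <;> omega

lemma nr3 : ∀ b c : ZMod 3, ∃ j : ZMod 3, j ^ 2 + b * j + c ≠ 0 := by decide
lemma nr5 : ∀ b c : ZMod 5, ∃ j : ZMod 5, j ^ 2 + b * j + c ≠ 0 := by decide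
lemma nr7 : ∀ b c : ZMod 7, ∃ j : ZMod 7, j ^ 2 + b * j + c ≠ 0 := by decide
lemma nr11 : ∀ b c : ZMod 11, ∃ j : ZMod 11, j ^ 2 + b * j + c ≠ 0 := by decide
lemma pr5 : ∀ A B : ZMod 5, A ≠ 0 → ∃ t : ZMod 5, A * t ^ 2 - B * t + 1 ≠ 0 ∧
    A * (t + 1) ^ 2 - B * (t + 1) + 1 ≠ 0 := by decide
lemma pr7 : ∀ A B : ZMod 7, A ≠ 0 → ∃ t : ZMod 7, A * t ^ 2 - B * t + 1 ≠ 0 ∧
    A * (t + 1) ^ 2 - B * (t + 1) + 1 ≠ 0 := by decide
set_option maxRecDepth 10000 in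
lemma pr11 : ∀ A B : ZMod 11, A ≠ 0 → ∃ t : ZMod 11, A * t ^ 2 - B * t + 1 ≠ 0 ∧
    A * (t + 1) ^ 2 - B * (t + 1) + 1 ≠ 0 := by decide

lemma choose_j (b c : ℤ) (j2 j9 : ℕ) : ∃ j : ℕ, 1 ≤ j ∧ j ≡ j2 [MOD 2] ∧ j ≡ j9 [MOD 9] ∧
    ¬ (5 : ℤ) ∣ (j : ℤ) ^ 2 + b * j + c ∧ ¬ (7 : ℤ) ∣ (j : ℤ) ^ 2 + b * j + c ∧
    ¬ (11 : ℤ) ∣ (j : ℤ) ^ 2 + b * j + c := by
  obtain ⟨x5, h5⟩ := nr5 b c
  obtain ⟨x7, h7⟩ := nr7 b c
  obtain ⟨x11, h11⟩ := nr11 b c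
  obtain ⟨j, h1, k2, k9, k5, k7, k11⟩ := crt5 j2 j9 x5.val x7.val x11.val
  have e5 : ((j : ℕ) : ZMod 5) = x5 := by
    rw [(ZMod.natCast_eq_natCast_iff j x5.val 5).2 k5, ZMod.natCast_zmod_val]
  have e7 : ((j : ℕ) : ZMod 7) = x7 := by
    rw [(ZMod.natCast_eq_natCast_iff j x7.val 7).2 k7, ZMod.natCast_zmod_val]
  have e11 : ((j : ℕ) : ZMod 11) = x11 := by
    rw [(ZMod.natCast_eq_natCast_iff j x11.val 11).2 k11, ZMod.natCast_zmod_val]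
  refine ⟨j, h1, k2, k9, ?_, ?_, ?_⟩
  · intro h
    apply h5
    have h' := (ZMod.intCast_zmod_eq_zero_iff_dvd ((j : ℤ) ^ 2 + b * j + c) 5).2 (by exact_mod_cast h)
    push_cast at h'
    rw [e5] at h'
    exact h'
  · intro h
    apply h7
    have h' := (ZMod.intCast_zmod_eq_zero_iff_dvd ((j : ℤ) ^ 2 + b * j + c) 7).2 (by exact_mod_cast h)
    push_cast at h'
    rw [e7] at h'
    exact h'
  · intro h
    apply h11
    have h' := (ZMod.intCast_zmod_eq_zero_iff_dvd ((j : ℤ) ^ 2 + b * j + c) 11).2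
      (by exact_mod_cast h)
    push_cast at h'
    rw [e11] at h'
    exact h'

lemma choose_t (b c : ℤ) (j : ℕ) (g5 : ¬ (5 : ℤ) ∣ (j : ℤ) ^ 2 + b * j + c)
    (g7 : ¬ (7 : ℤ) ∣ (j : ℤ) ^ 2 + b * j + c) (g11 : ¬ (11 : ℤ) ∣ (j : ℤ) ^ 2 + b * j + c)
    (t2 t9 : ℕ) : ∃ t : ℕ, 1 ≤ t ∧ t ≡ t2 [MOD 2] ∧ t ≡ t9 [MOD 9] ∧
    (¬ (5 : ℤ) ∣ gg b c j t ∧ ¬ (7 : ℤ) ∣ gg b c j t ∧ ¬ (11 : ℤ) ∣ gg b c j t) ∧
    (¬ (5 : ℤ) ∣ gg b c j (t + 1) ∧ ¬ (7 : ℤ) ∣ gg b c j (t + 1) ∧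
      ¬ (11 : ℤ) ∣ gg b c j (t + 1)) := by
  have f5 : (((j : ℤ) ^ 2 + b * j + c : ℤ) : ZMod 5) ≠ 0 := fun h =>
    g5 (by exact_mod_cast (ZMod.intCast_zmod_eq_zero_iff_dvd _ 5).1 h)
  have f7 : (((j : ℤ) ^ 2 + b * j + c : ℤ) : ZMod 7) ≠ 0 := fun h =>
    g7 (by exact_mod_cast (ZMod.intCast_zmod_eq_zero_iff_dvd _ 7).1 h)
  have f11 : (((j : ℤ) ^ 2 + b * j + c : ℤ) : ZMod 11) ≠ 0 := fun h =>
    g11 (by exact_mod_cast (ZMod.intCast_zmod_eq_zero_iff_dvd _ 11).1 h)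
  obtain ⟨x5, h5⟩ := pr5 _ ((2 * j + b : ℤ) : ZMod 5) f5
  obtain ⟨x7, h7⟩ := pr7 _ ((2 * j + b : ℤ) : ZMod 7) f7
  obtain ⟨x11, h11⟩ := pr11 _ ((2 * j + b : ℤ) : ZMod 11) f11
  obtain ⟨t, h1, k2, k9, k5, k7, k11⟩ := crt5 t2 t9 x5.val x7.val x11.val
  have e5 : ((t : ℕ) : ZMod 5) = x5 := by
    rw [(ZMod.natCast_eq_natCast_iff t x5.val 5).2 k5, ZMod.natCast_zmod_val]
  have e7 : ((t : ℕ) : ZMod 7) = x7 := by
    rw [(ZMod.natCast_eq_natCast_iff t x7.val 7).2 k7, ZMod.natCast_zmod_val]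
  have e11 : ((t : ℕ) : ZMod 11) = x11 := by
    rw [(ZMod.natCast_eq_natCast_iff t x11.val 11).2 k11, ZMod.natCast_zmod_val]
  refine ⟨t, h1, k2, k9, ⟨?_, ?_, ?_⟩, ?_, ?_, ?_⟩
  · intro h
    apply h5.1
    have h' := (ZMod.intCast_zmod_eq_zero_iff_dvd (gg b c j t) 5).2 (by exact_mod_cast h)
    unfold gg at h'
    push_cast at h' ⊢
    rw [e5] at h'
    exact h'
  · intro h
    apply h7.1
    have h' := (ZMod.intCast_zmod_eq_zero_iff_dvd (gg b c j t) 7).2 (by exact_mod_cast h)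
    unfold gg at h'
    push_cast at h' ⊢
    rw [e7] at h'
    exact h'
  · intro h
    apply h11.1
    have h' := (ZMod.intCast_zmod_eq_zero_iff_dvd (gg b c j t) 11).2 (by exact_mod_cast h)
    unfold gg at h'
    push_cast at h' ⊢
    rw [e11] at h'
    exact h'
  · intro h
    apply h5.2
    have h' := (ZMod.intCast_zmod_eq_zero_iff_dvd (gg b c j (t + 1)) 5).2 (by exact_mod_cast h)
    unfold gg at h'
    push_cast at h' ⊢
    rw [e5] at h'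
    exact h'
  · intro h
    apply h7.2
    have h' := (ZMod.intCast_zmod_eq_zero_iff_dvd (gg b c j (t + 1)) 7).2 (by exact_mod_cast h)
    unfold gg at h'
    push_cast at h' ⊢
    rw [e7] at h'
    exact h'
  · intro h
    apply h11.2
    have h' := (ZMod.intCast_zmod_eq_zero_iff_dvd (gg b c j (t + 1)) 11).2 (by exact_mod_cast h)
    unfold gg at h'
    push_cast at h' ⊢
    rw [e11] at h'
    exact h'

lemma gg_pos {b c : ℤ} (hb : 0 ≤ b) (hc : 1 ≤ c) {j t : ℤ} (hj : 1 ≤ j) (ht : 1 ≤ t) :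
    0 < gg b c j t := by
  have h1 : gg b c j t = (j * t - 1) ^ 2 + b * ((j * t - 1) * t) + c * t ^ 2 := by
    unfold gg; ring
  have h2 : 0 ≤ j * t - 1 := by nlinarith
  have h3 : 0 ≤ b * ((j * t - 1) * t) := mul_nonneg hb (mul_nonneg h2 (by linarith))
  have h4 : 0 < c * t ^ 2 := by positivity
  rw [h1]
  nlinarith [sq_nonneg (j * t - 1)]

/-- the general choice -/
theorem loc_gen {b c : ℤ} (hb : 0 ≤ b) (hc : 1 ≤ c) (hbc : ¬ (Odd b ∧ Even c)) :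
    ∃ i k : ℕ, ∃ w : Fin 3 → ℕ × ℕ,
      Data b c (2310 * (2 ^ i * 3 ^ k)) w ![1, 1, 2 ^ i * 3 ^ k] := by
  -- the class modulo two
  obtain ⟨j2, hj2⟩ : ∃ j2 : ℕ, ∀ j : ℕ, j ≡ j2 [MOD 2] → ¬ (2 : ℤ) ∣ (j : ℤ) ^ 2 + b * j + c := by
    rcases Int.even_or_odd c with h | h
    · have hb2 : Even b := by
        rcases Int.even_or_odd b with h' | h'
        · exact h'
        · exact absurd ⟨h', h⟩ hbc
      refine ⟨1, fun j hj hd => ?_⟩
      have hj' : Odd (j : ℤ) := by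
        rw [Int.odd_coe_nat, Nat.odd_iff]; exact hj
      have h3 : Odd ((j : ℤ) ^ 2 + b * j + c) :=
        ((hj'.pow.add_even (hb2.mul_right _)).add_even h)
      rw [← even_iff_two_dvd] at hd
      exact (Int.not_even_iff_odd.2 h3) hd
    · refine ⟨0, fun j hj hd => ?_⟩
      have hj' : Even (j : ℤ) := by
        rw [Int.even_coe_nat, Nat.even_iff]; exact hj
      have h3 : Odd ((j : ℤ) ^ 2 + b * j + c) :=
        ((hj'.pow_of_ne_zero (by norm_num)).add (hj'.mul_left b)).add_odd h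
      rw [← even_iff_two_dvd] at hd
      exact (Int.not_even_iff_odd.2 h3) hd
  obtain ⟨x3, hx3⟩ := nr3 b c
  obtain ⟨j, hj, k2, k9, g5, g7, g11⟩ := choose_j b c j2 x3.val
  have h2 := hj2 j k2
  have h3 : ¬ (3 : ℤ) ∣ (j : ℤ) ^ 2 + b * j + c := by
    intro h
    apply hx3
    have k3 : j ≡ x3.val [MOD 3] := k9.of_dvd (by norm_num)
    have e3 : ((j : ℕ) : ZMod 3) = x3 := by
      rw [(ZMod.natCast_eq_natCast_iff j x3.val 3).2 k3, ZMod.natCast_zmod_val]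
    have h' := (ZMod.intCast_zmod_eq_zero_iff_dvd ((j : ℤ) ^ 2 + b * j + c) 3).2 (by exact_mod_cast h)
    push_cast at h'
    rw [e3] at h'
    exact h'
  obtain ⟨t, ht, t2, t9, ⟨a5, a7, a11⟩, b5, b7, b11⟩ := choose_t b c j g5 g7 g11 0 0
  have d2 : (2 : ℤ) ∣ t := by
    have := (Nat.modEq_zero_iff_dvd.1 t2); exact_mod_cast this
  have d3 : (3 : ℤ) ∣ t := by
    have h4 : 9 ∣ t := Nat.modEq_zero_iff_dvd.1 t9
    have h5 : 3 ∣ t := (by norm_num : 3 ∣ 9).trans h4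
    exact_mod_cast h5
  have a2 : ¬ (2 : ℤ) ∣ gg b c j t := by
    intro h
    obtain ⟨u, hu⟩ := d2
    have h5 : (2 : ℤ) ∣ (j ^ 2 + b * j + c) * t ^ 2 - (2 * j + b) * t := by
      rw [hu]; exact ⟨(j ^ 2 + b * j + c) * (2 * u ^ 2) - (2 * j + b) * u, by ring⟩
    unfold gg at h
    have := (dvd_add_right h5).1 h
    norm_num at this
  have a3 : ¬ (3 : ℤ) ∣ gg b c j t := by
    intro h
    obtain ⟨u, hu⟩ := d3
    have h5 : (3 : ℤ) ∣ (j ^ 2 + b * j + c) * t ^ 2 - (2 * j + b) * t := by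
      rw [hu]; exact ⟨(j ^ 2 + b * j + c) * (3 * u ^ 2) - (2 * j + b) * u, by ring⟩
    unfold gg at h
    have := (dvd_add_right h5).1 h
    norm_num at this
  have hgp : 0 < gg b c j (t + 1) :=
    gg_pos hb hc (by exact_mod_cast hj) (by omega)
  obtain ⟨n, hn⟩ := Int.eq_ofNat_of_zero_le hgp.le
  have hn0 : n ≠ 0 := by rintro rfl; rw [hn] at hgp; simp at hgp
  obtain ⟨i, n1, hi1, hi2⟩ := Nat.exists_eq_pow_mul_and_not_dvd hn0 2 (by norm_num)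
  have hn1 : n1 ≠ 0 := by rintro rfl; simp at hi1
  obtain ⟨k, m, hk1, hk2⟩ := Nat.exists_eq_pow_mul_and_not_dvd hn1 3 (by norm_num)
  have hval : gg b c j (t + 1) = ((2 ^ i * 3 ^ k : ℕ) : ℤ) * (m : ℤ) := by
    rw [hn, hi2, hk2]; push_cast; ring
  refine ⟨i, k, _, data_of hb hc hj ht (by positivity) ?_ ⟨h2, h3, g5, g7, g11⟩
    ⟨a2, a3, a5, a7, a11⟩ hval ⟨?_, ?_, ?_, ?_, ?_⟩⟩
  · intro p hp hd
    rcases (Nat.Prime.dvd_mul hp).1 hd with h | h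
    · have := (Nat.prime_dvd_prime_iff_eq hp Nat.prime_two).1 (hp.dvd_of_dvd_pow h); omega
    · have := (Nat.prime_dvd_prime_iff_eq hp Nat.prime_three).1 (hp.dvd_of_dvd_pow h); omega
  · intro h
    apply hi1
    rw [hk2]
    have : 2 ∣ m := by exact_mod_cast h
    exact this.mul_left _
  · intro h
    exact hk1 (by exact_mod_cast h)
  · intro h; exact b5 (by rw [hval]; exact h.mul_left _)
  · intro h; exact b7 (by rw [hval]; exact h.mul_left _)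
  · intro h; exact b11 (by rw [hval]; exact h.mul_left _)

/-- the choice for `x ^ 2 + x + A`, `A` not divisible by three -/
theorem loc_A {A : ℤ} (hA : 1 ≤ A) (hodd : Odd A) (h3 : ¬ (3 : ℤ) ∣ A) :
    ∃ w : Fin 3 → ℕ × ℕ, Data 1 A (2310 * 1) w ![1, 1, 1] := by
  obtain ⟨j, hj, k2, k9, g5, g7, g11⟩ := choose_j 1 A 0 0
  obtain ⟨t, ht, t2, t9, ⟨a5, a7, a11⟩, b5, b7, b11⟩ := choose_t 1 A j g5 g7 g11 0 0
  obtain ⟨A', hA'⟩ := hodd
  obtain ⟨j', hj'⟩ : (2 : ℤ) ∣ j := by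
    have := (Nat.modEq_zero_iff_dvd.1 k2); exact_mod_cast this
  obtain ⟨t', ht'⟩ : (2 : ℤ) ∣ t := by
    have := (Nat.modEq_zero_iff_dvd.1 t2); exact_mod_cast this
  obtain ⟨j3, hj3⟩ : (9 : ℤ) ∣ j := by
    have := (Nat.modEq_zero_iff_dvd.1 k9); exact_mod_cast this
  obtain ⟨t3, ht3⟩ : (9 : ℤ) ∣ t := by
    have := (Nat.modEq_zero_iff_dvd.1 t9); exact_mod_cast this
  refine ⟨_, data_of (by norm_num) hA hj ht one_pos ?_ ⟨?_, ?_, g5, g7, g11⟩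
    ⟨?_, ?_, a5, a7, a11⟩ (m := gg 1 A j (t + 1)) (by simp) ⟨?_, ?_, b5, b7, b11⟩⟩
  · intro p hp hd
    exact absurd (Nat.dvd_one.1 hd) hp.one_lt.ne'
  · rintro ⟨x, hx⟩
    rw [hA', hj'] at hx
    ring_nf at hx
    omega
  · rintro ⟨x, hx⟩
    apply h3
    rw [hj3] at hx
    exact ⟨x - 27 * j3 ^ 2 - 3 * j3, by linear_combination hx⟩
  · rintro ⟨x, hx⟩
    unfold gg at hx
    have h4 : (1 : ℤ) = 2 * (x - (j ^ 2 + 1 * j + A) * (2 * t' ^ 2) + (2 * j + 1) * t') := by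
      rw [ht'] at hx; linear_combination hx
    omega
  · rintro ⟨x, hx⟩
    unfold gg at hx
    have h4 : (1 : ℤ) = 3 * (x - (j ^ 2 + 1 * j + A) * (27 * t3 ^ 2) + (2 * j + 1) * (3 * t3)) := by
      rw [ht3] at hx; linear_combination hx
    omega
  · rintro ⟨x, hx⟩
    unfold gg at hx
    have h4 : (1 : ℤ) = 2 * (x - (2 * j' ^ 2 + j' + A') - (j ^ 2 + 1 * j + A) * (2 * t' ^ 2 + 2 * t')
        + (2 * j + 1) * t' + j) := by
      have e : (j : ℤ) ^ 2 + 1 * j + A = 2 * (2 * j' ^ 2 + j' + A') + 1 := by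
        rw [hj', hA']; ring
      have e2 : ((j : ℤ) ^ 2 + 1 * j + A) * (t + 1) ^ 2 = (j ^ 2 + 1 * j + A) * (4 * t' ^ 2 + 4 * t')
        + (2 * (2 * j' ^ 2 + j' + A') + 1) := by
        rw [ht']; linear_combination e
      have e3 : (2 * (j : ℤ) + 1) * (t + 1) = (2 * j + 1) * (2 * t') + 2 * j + 1 := by
        rw [ht']; ring
      linear_combination hx - e2 + e3
    omega
  · rintro ⟨x, hx⟩
    apply h3
    unfold gg at hx
    refine ⟨x - 27 * j3 ^ 2 - 3 * j3 - (j ^ 2 + 1 * j + A) * (27 * t3 ^ 2 + 6 * t3)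
        + (2 * j + 1) * (3 * t3) + 6 * j3, ?_⟩
    have e : (j : ℤ) ^ 2 + 1 * j + A = 3 * (27 * j3 ^ 2 + 3 * j3) + A := by
      rw [hj3]; ring
    have e2 : ((j : ℤ) ^ 2 + 1 * j + A) * (t + 1) ^ 2 = (j ^ 2 + 1 * j + A) * (81 * t3 ^ 2 + 18 * t3)
      + (3 * (27 * j3 ^ 2 + 3 * j3) + A) := by
      rw [ht3]; linear_combination e
    have e3 : (2 * (j : ℤ) + 1) * (t + 1) = (2 * j + 1) * (9 * t3) + 18 * j3 + 1 := by
      rw [ht3]; linear_combination 2 * hj3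
    linear_combination hx - e2 + e3

/-- the choice for `x ^ 2 + x + A`, `A` divisible by three -/
theorem loc_A3 {A : ℤ} (hA : 1 ≤ A) (hodd : Odd A) (h3 : (3 : ℤ) ∣ A) :
    ∃ w : Fin 3 → ℕ × ℕ, Data 1 A (2310 * 3) w ![1, 1, 3] := by
  obtain ⟨a, ha⟩ := h3
  obtain ⟨j, hj, k2, k9, g5, g7, g11⟩ := choose_j 1 A 0 1
  obtain ⟨t, ht, t2, t9, ⟨a5, a7, a11⟩, b5, b7, b11⟩ :=
    choose_t 1 A j g5 g7 g11 0 (((3 - A) % 9).toNat)
  obtain ⟨A', hA'⟩ := hodd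
  obtain ⟨j', hj'⟩ : (2 : ℤ) ∣ j := by
    have := (Nat.modEq_zero_iff_dvd.1 k2); exact_mod_cast this
  obtain ⟨t', ht'⟩ : (2 : ℤ) ∣ t := by
    have := (Nat.modEq_zero_iff_dvd.1 t2); exact_mod_cast this
  obtain ⟨j3, hj3⟩ : ∃ j3 : ℤ, (j : ℤ) = 1 + 9 * j3 := by
    have h4 : j % 9 = 1 % 9 := k9
    exact ⟨(j / 9 : ℕ), by omega⟩
  obtain ⟨t3, ht3⟩ : ∃ t3 : ℤ, (t : ℤ) = 3 - A + 9 * t3 := by
    have h4 : t % 9 = (((3 - A) % 9).toNat) % 9 := t9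
    exact ⟨((t : ℤ) - (3 - A)) / 9, by omega⟩
  have hkey : gg 1 A j (t + 1) = 3 * (1 + 3 * ((gg 1 A j (t + 1) - 3) / 9)) := by
    have h9 : (9 : ℤ) ∣ gg 1 A j (t + 1) - 3 := by
      rw [ht3, hj3, ha]
      unfold gg
      ring_nf
      omega
    omega
  refine ⟨_, data_of (by norm_num) hA hj ht three_pos ?_ ⟨?_, ?_, g5, g7, g11⟩
    ⟨?_, ?_, a5, a7, a11⟩ (m := 1 + 3 * ((gg 1 A j (t + 1) - 3) / 9)) (by exact_mod_cast hkey)
    ⟨?_, ?_, ?_, ?_, ?_⟩⟩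
  · intro p hp hd
    have := (Nat.prime_dvd_prime_iff_eq hp Nat.prime_three).1 hd
    omega
  · rintro ⟨x, hx⟩
    rw [hA', hj'] at hx
    ring_nf at hx
    omega
  · rintro ⟨x, hx⟩
    rw [hj3, ha] at hx
    ring_nf at hx
    omega
  · rintro ⟨x, hx⟩
    unfold gg at hx
    have h4 : (1 : ℤ) = 2 * (x - (j ^ 2 + 1 * j + A) * (2 * t' ^ 2) + (2 * j + 1) * t') := by
      rw [ht'] at hx; linear_combination hx
    omega
  · rintro ⟨x, hx⟩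
    unfold gg at hx
    obtain ⟨t4, ht4⟩ : (3 : ℤ) ∣ t := ⟨1 - a + 3 * t3, by rw [ht3, ha]; ring⟩
    have h4 : (1 : ℤ) = 3 * (x - (j ^ 2 + 1 * j + A) * (3 * t4 ^ 2) + (2 * j + 1) * t4) := by
      rw [ht4] at hx; linear_combination hx
    omega
  · intro hd
    have h5 : (2 : ℤ) ∣ gg 1 A j (t + 1) := by rw [hkey]; exact hd.mul_left _
    obtain ⟨x, hx⟩ := h5
    unfold gg at hx
    have h4 : (1 : ℤ) = 2 * (x - (2 * j' ^ 2 + j' + A') - (j ^ 2 + 1 * j + A) * (2 * t' ^ 2 + 2 * t')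
        + (2 * j + 1) * t' + j) := by
      have e : (j : ℤ) ^ 2 + 1 * j + A = 2 * (2 * j' ^ 2 + j' + A') + 1 := by
        rw [hj', hA']; ring
      have e2 : ((j : ℤ) ^ 2 + 1 * j + A) * (t + 1) ^ 2 = (j ^ 2 + 1 * j + A) * (4 * t' ^ 2 + 4 * t')
        + (2 * (2 * j' ^ 2 + j' + A') + 1) := by
        rw [ht']; linear_combination e
      have e3 : (2 * (j : ℤ) + 1) * (t + 1) = (2 * j + 1) * (2 * t') + 2 * j + 1 := by
        rw [ht']; ring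
      linear_combination hx - e2 + e3
    omega
  · intro hd
    omega
  · intro h; exact b5 (by rw [hkey]; exact h.mul_left _)
  · intro h; exact b7 (by rw [hkey]; exact h.mul_left _)
  · intro h; exact b11 (by rw [hkey]; exact h.mul_left _)

/-- the choice for `k ^ 2 + 3 k + 1` -/
theorem loc_K : ∃ w : Fin 3 → ℕ × ℕ, Data 3 1 (2310 * 1) w ![1, 1, 1] := by
  refine ⟨_, data_of (b := 3) (c := 1) (j := 3) (t := 4) (s := 1) (by norm_num) (by norm_num)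
    (by norm_num) (by norm_num) one_pos ?_ ?_ ?_ (m := 431) ?_ ?_⟩
  · intro p hp hd
    exact absurd (Nat.dvd_one.1 hd) hp.one_lt.ne'
  · unfold Cop; norm_num
  · unfold Cop gg; norm_num
  · unfold gg; norm_num
  · unfold Cop; norm_num

end Pool.Agent.Q91.RP
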