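import Mathlib
import Pool.Agent.Q91.RP.Main
import Pool.Agent.Q91.RP.Loc

/-!
From the form `N ^ 2 + b N + c` to a polynomial in a shifted variable.
-/

set_option autoImplicit false
set_option maxHeartbeats 400000

namespace Pool.Agent.Q91.RP

open Finset Pool.Agent.H505R2

open Classical in
/-- the `n ≤ X` for which `f n` is `r` times a number `M` with `g M = e`, having at most `K` prime
factors, all of them larger than `X ^ (1 / K)` -/
noncomputable def TF (f : ℕ → ℤ) (r K X : ℕ) (g : ℕ → ℤ) (e : ℤ) : Finset ℕ :=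
  (Icc 1 X).filter (fun n => ∃ M : ℕ, f n = (r : ℤ) * M ∧ g M = e ∧
    M.primeFactorsList.length ≤ K ∧ ∀ p : ℕ, p.Prime → p ∣ M → X < p ^ K)

open Classical in
/-- the `n ≤ X` for which `g (f n) = 1` and `f n` is `1` or `s` times a number `M` having at most
`K` prime factors, all of them larger than `X ^ (1 / K)` -/
noncomputable def EF (f : ℕ → ℤ) (s K X : ℕ) (g : ℕ → ℤ) : Finset ℕ :=
  (Icc 1 X).filter (fun n => 0 < f n ∧ g (f n).toNat = 1 ∧ ∃ r M : ℕ, (r = 1 ∨ r = s) ∧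
    f n = (r : ℤ) * M ∧ M.primeFactorsList.length ≤ K ∧ ∀ p : ℕ, p.Prime → p ∣ M → X < p ^ K)

lemma TF_sub_EF {f : ℕ → ℤ} {r s K X : ℕ} {g : ℕ → ℤ} {e : ℤ} (hg : Sg g) (hX : 2 ^ K ≤ X)
    (hr : r = 1 ∨ r = s) (hr0 : r ≠ 0) (he : g r * e = 1) : TF f r K X g e ⊆ EF f s K X g := by
  classical
  intro n hn
  unfold TF at hn
  unfold EF
  rw [mem_filter] at hn ⊢
  obtain ⟨h1, M, h2, h3, h4, h5⟩ := hn
  have hM : M ≠ 0 := by
    rintro rfl
    have := h5 2 Nat.prime_two (dvd_zero _)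
    omega
  have hpos : 0 < f n := by
    rw [h2, ← Nat.cast_mul]
    exact_mod_cast Nat.pos_of_ne_zero (Nat.mul_ne_zero hr0 hM)
  refine ⟨h1, hpos, ?_, r, M, hr, h2, h4, h5⟩
  rw [h2, ← Nat.cast_mul, Int.toNat_natCast, hg.mul _ _ hr0 hM, h3, he]

lemma Sg.one {g : ℕ → ℤ} (hg : Sg g) : g 1 = 1 := by
  have h := hg.mul 1 1 one_ne_zero one_ne_zero
  rw [mul_one] at h
  rcases hg.one_or 1 one_ne_zero with h1 | h1
  · exact h1
  · rw [h1] at h; norm_num at h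

lemma EF_ge {f : ℕ → ℤ} {s K X : ℕ} {g : ℕ → ℤ} {i l : ℤ} {y : ℝ} (hg : Sg g) (hX : 2 ^ K ≤ X)
    (hs : s ≠ 0) (hi : i = 1 ∨ i = -1) (hl : l = 1 ∨ l = -1)
    (h1 : y ≤ ((TF f 1 K X g i).card : ℝ)) (h2 : y ≤ ((TF f s K X g l).card : ℝ))
    (h3 : y ≤ ((TF f s K X g (i * l)).card : ℝ)) : y ≤ ((EF f s K X g).card : ℝ) := by
  rcases hi with rfl | rfl
  · refine h1.trans ?_
    exact_mod_cast card_le_card (TF_sub_EF hg hX (Or.inl rfl) one_ne_zero (by rw [hg.one]; norm_num))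
  · rcases hg.one_or s hs with h | h <;> rcases hl with rfl | rfl
    · refine h2.trans ?_
      exact_mod_cast card_le_card (TF_sub_EF hg hX (Or.inr rfl) hs (by rw [h]; norm_num))
    · refine h3.trans ?_
      have e1 : g s * ((-1 : ℤ) * -1) = 1 := by rw [h]; norm_num
      exact_mod_cast card_le_card (TF_sub_EF hg hX (Or.inr rfl) hs e1)
    · refine h3.trans ?_
      exact_mod_cast card_le_card (TF_sub_EF hg hX (Or.inr rfl) hs (by rw [h]; norm_num))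
    · refine h2.trans ?_
      exact_mod_cast card_le_card (TF_sub_EF hg hX (Or.inr rfl) hs (by rw [h]; norm_num))

/-- shift of the variable -/
lemma TT_shift {b c : ℤ} {f : ℕ → ℤ} {k : ℕ} (hf : ∀ N : ℕ, f (N + k) = fm b c 1 (N : ℤ))
    {r K X : ℕ} (hX : 2 * k ≤ X) (hX1 : 1 ≤ X) (g : ℕ → ℤ) (e : ℤ) :
    (TT b c r K (X - k) g e).card ≤ (TF f r (K + 1) X g e).card := by
  classical
  apply card_le_card_of_injOn (fun N => N + k)
  · intro N hN
    unfold TT at hN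
    unfold TF
    rw [mem_coe, mem_filter, mem_Icc] at hN
    rw [mem_coe, mem_filter, mem_Icc]
    obtain ⟨⟨h1, h2⟩, M, h3, h4, h5, h6⟩ := hN
    refine ⟨⟨?_, ?_⟩, M, ?_, h4, by omega, ?_⟩
    · show 1 ≤ N + k
      omega
    · show N + k ≤ X
      omega
    · rw [hf N, h3]
    · intro p hp hd
      have h7 := h6 p hp hd
      calc X ≤ 2 * (X - k) := by omega
        _ < 2 * p ^ K := by omega
        _ ≤ p * p ^ K := Nat.mul_le_mul_right _ hp.two_le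
        _ = p ^ (K + 1) := by ring
  · intro N _ N' _ h
    simpa using h

/-- the main theorem for a shifted variable -/
theorem engine_shift : ∃ K : ℕ, ∀ (b c : ℤ) (Q : ℕ) (w : Fin 3 → ℕ × ℕ) (s : ℕ),
    Data b c Q w ![1, 1, s] → ∀ (f : ℕ → ℤ) (k : ℕ), (∀ N : ℕ, f (N + k) = fm b c 1 (N : ℤ)) →
    ∃ X0 : ℕ, ∀ X : ℕ, X0 ≤ X → ∀ g : ℕ → ℤ, Sg g →
    (∃ i l : ℤ, (i = 1 ∨ i = -1) ∧ (l = 1 ∨ l = -1) ∧
      (X : ℝ) / Real.log X ^ K ≤ ((TF f 1 K X g i).card : ℝ) ∧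
      (X : ℝ) / Real.log X ^ K ≤ ((TF f s K X g l).card : ℝ) ∧
      (X : ℝ) / Real.log X ^ K ≤ ((TF f s K X g (i * l)).card : ℝ)) ∧
    (X : ℝ) / Real.log X ^ K ≤ ((EF f s K X g).card : ℝ) := by
  obtain ⟨K, hK⟩ := engine
  refine ⟨K + 1, ?_⟩
  intro b c Q w s D f k hf
  obtain ⟨X0, hX0⟩ := hK b c Q w s D
  refine ⟨max (X0 + k) (max (2 * k) (max (2 ^ (K + 1)) (max 3 ⌈Real.exp 2⌉₊))) + k + 3, ?_⟩
  intro X hX g hg
  have a1 : X0 + k ≤ X := by
    have := le_max_left (X0 + k) (max (2 * k) (max (2 ^ (K + 1)) (max 3 ⌈Real.exp 2⌉₊)))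
    omega
  have a2 : 2 * k ≤ X := by
    have := le_max_right (X0 + k) (max (2 * k) (max (2 ^ (K + 1)) (max 3 ⌈Real.exp 2⌉₊)))
    have := le_max_left (2 * k) (max (2 ^ (K + 1)) (max 3 ⌈Real.exp 2⌉₊))
    omega
  have a3 : 2 ^ (K + 1) ≤ X := by
    have := le_max_right (X0 + k) (max (2 * k) (max (2 ^ (K + 1)) (max 3 ⌈Real.exp 2⌉₊)))
    have := le_max_right (2 * k) (max (2 ^ (K + 1)) (max 3 ⌈Real.exp 2⌉₊))
    have := le_max_left (2 ^ (K + 1)) (max 3 ⌈Real.exp 2⌉₊)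
    omega
  have a4 : ⌈Real.exp 2⌉₊ ≤ X := by
    have := le_max_right (X0 + k) (max (2 * k) (max (2 ^ (K + 1)) (max 3 ⌈Real.exp 2⌉₊)))
    have := le_max_right (2 * k) (max (2 ^ (K + 1)) (max 3 ⌈Real.exp 2⌉₊))
    have := le_max_right (2 ^ (K + 1)) (max 3 ⌈Real.exp 2⌉₊)
    have := le_max_right 3 ⌈Real.exp 2⌉₊
    omega
  have a5 : k + 3 ≤ X := by omega
  have a4' : Real.exp 2 ≤ X := (Nat.le_ceil _).trans (by exact_mod_cast a4)
  have hlog : 2 ≤ Real.log X := by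
    rw [← Real.log_exp 2]
    exact Real.log_le_log (Real.exp_pos _) a4'
  have hcmp : (X : ℝ) / Real.log X ^ (K + 1) ≤ ((X - k : ℕ) : ℝ) / Real.log ((X - k : ℕ) : ℝ) ^ K := by
    have b1 : (X : ℝ) ≤ 2 * ((X - k : ℕ) : ℝ) := by
      have : X ≤ 2 * (X - k) := by omega
      exact_mod_cast this
    have b2 : (3 : ℝ) ≤ ((X - k : ℕ) : ℝ) := by
      have : 3 ≤ X - k := by omega
      exact_mod_cast this
    have b3 : ((X - k : ℕ) : ℝ) ≤ X := by exact_mod_cast Nat.sub_le X k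
    have b4 : 0 < Real.log ((X - k : ℕ) : ℝ) := Real.log_pos (by linarith)
    have b5 : Real.log ((X - k : ℕ) : ℝ) ≤ Real.log X := Real.log_le_log (by linarith) b3
    rw [div_le_div_iff₀ (by positivity) (by positivity)]
    calc (X : ℝ) * Real.log ((X - k : ℕ) : ℝ) ^ K ≤ (2 * ((X - k : ℕ) : ℝ)) * Real.log X ^ K := by
          gcongr
      _ ≤ (Real.log X * ((X - k : ℕ) : ℝ)) * Real.log X ^ K := by gcongr
      _ = ((X - k : ℕ) : ℝ) * Real.log X ^ (K + 1) := by ring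
  obtain ⟨i, l, hi, hl, h1, h2, h3⟩ := hX0 (X - k) (by omega) g hg
  have sh : ∀ (r : ℕ) (e : ℤ), ((X - k : ℕ) : ℝ) / Real.log ((X - k : ℕ) : ℝ) ^ K ≤
      ((TT b c r K (X - k) g e).card : ℝ) →
      (X : ℝ) / Real.log X ^ (K + 1) ≤ ((TF f r (K + 1) X g e).card : ℝ) := by
    intro r e h
    refine hcmp.trans (h.trans ?_)
    exact_mod_cast TT_shift hf a2 (by omega) g e
  have hs : s ≠ 0 := by
    have := D.spos 2
    simp only [Matrix.cons_val] at this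
    omega
  exact ⟨⟨i, l, hi, hl, sh 1 i h1, sh s l h2, sh s (i * l) h3⟩,
    EF_ge hg a3 hs hi hl (sh 1 i h1) (sh s l h2) (sh s (i * l) h3)⟩

end Pool.Agent.Q91.RP
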