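import Pool.Agent.Q266.RP.Stm

/-!
# Project RP (helper266), job PAIR
-/

set_option autoImplicit false

namespace Pool.Agent.Q91.RP.PairJob

open Pool.Agent.Q266.RP MulAction

theorem pair : S_PAIR := by
  classical
  intro p hp G _ _ hG hP hc ho
  have hp2 : 2 ≤ p := hp.out.two_le
  have hnt : Nontrivial G := by
    by_contra hcon
    rw [not_nontrivial_iff_subsingleton] at hcon
    have : Nat.card {g : G // g ^ p = 1} ≤ 1 := by
      have : Subsingleton {g : G // g ^ p = 1} := inferInstance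
      exact Finite.card_le_one_iff_subsingleton.2 this
    omega
  have hcn : Nontrivial (Subgroup.center G) := hG.center_nontrivial
  have hdvd : p ∣ Nat.card (Subgroup.center G) := by
    obtain ⟨n, hn0, hn⟩ := (hG.to_subgroup (Subgroup.center G)).nontrivial_iff_card.mp hcn
    exact hn.symm ▸ dvd_pow_self _ (ne_of_gt hn0)
  obtain ⟨z', hz'⟩ := exists_prime_orderOf_dvd_card' (G := Subgroup.center G) p hdvd
  set z : G := (z' : G) with hz
  have hzc : z ∈ Subgroup.center G := z'.2
  have hzo : orderOf z = p := by rw [hz, Subgroup.orderOf_coe, hz']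
  have hcomm : ∀ g, g * z = z * g := fun g => Subgroup.mem_center_iff.1 hzc g
  -- the central elements of order dividing `p`
  have hZ : ∀ t, t ∈ Subgroup.center G → t ^ p = 1 → t ∈ Subgroup.zpowers z := by
    have hf : ∀ t : Subgroup.zpowers z, (t : G) ∈ Subgroup.center G ∧ (t : G) ^ p = 1 := by
      rintro ⟨t, n, rfl⟩
      refine ⟨Subgroup.zpow_mem _ hzc n, ?_⟩
      show (z ^ n) ^ p = 1
      rw [← zpow_natCast, ← zpow_mul, mul_comm, zpow_mul, zpow_natCast, ← hzo, pow_orderOf_eq_one,
        one_zpow]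
    let f : Subgroup.zpowers z → {t : G // t ∈ Subgroup.center G ∧ t ^ p = 1} :=
      fun t => ⟨t, hf t⟩
    have hfi : Function.Injective f := fun a b h => Subtype.ext (congrArg
      (fun s : {t : G // t ∈ Subgroup.center G ∧ t ^ p = 1} => (s : G)) h)
    have hcz : Nat.card (Subgroup.zpowers z) = p := by rw [Nat.card_zpowers, hzo]
    have hbij : Function.Bijective f := by
      rw [Nat.bijective_iff_injective_and_card]
      exact ⟨hfi, le_antisymm (Nat.card_le_card_of_injective f hfi) (hcz ▸ hc)⟩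
    intro t ht1 ht2
    obtain ⟨s, hs⟩ := hbij.2 ⟨t, ht1, ht2⟩
    have : (s : G) = t := congrArg Subtype.val hs
    rw [← this]
    exact s.2
  have hZn : (Subgroup.zpowers z).Normal := by
    constructor
    rintro _ ⟨n, rfl⟩ g
    refine ⟨n, ?_⟩
    show z ^ n = g * z ^ n * g⁻¹
    have : g * z ^ n = z ^ n * g := (Commute.zpow_right (hcomm g) n)
    rw [this, mul_inv_cancel_right]
  -- the subgroup of the elements of order dividing `p`
  let Ω : Subgroup G :=
    { carrier := {g | g ^ p = 1}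
      one_mem' := one_pow p
      mul_mem' := by
        intro a b ha hb
        have h1 : (a⁻¹) ^ p = b ^ p := by
          rw [inv_pow, show a ^ p = 1 from ha, show b ^ p = 1 from hb, inv_one]
        have h2 := (hP a⁻¹ b).1 h1
        rwa [inv_inv] at h2
      inv_mem' := by
        intro a ha
        show (a⁻¹) ^ p = 1
        rw [inv_pow, show a ^ p = 1 from ha, inv_one] }
  have hΩ : ∀ g, g ∈ Ω ↔ g ^ p = 1 := fun g => Iff.rfl
  have hΩn : Ω.Normal := by
    constructor
    intro a ha g
    rw [hΩ] at ha ⊢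
    rw [conj_pow, ha, mul_one, mul_inv_cancel]
  obtain ⟨g0, hg0, hg0Z⟩ : ∃ g, g ∈ Ω ∧ g ∉ Subgroup.zpowers z := by
    by_contra hcon
    push Not at hcon
    have h1 : Nat.card {g : G // g ^ p = 1} ≤ Nat.card (Subgroup.zpowers z) := by
      refine Nat.card_le_card_of_injective (fun g : {g : G // g ^ p = 1} =>
        (⟨(g : G), hcon g g.2⟩ : Subgroup.zpowers z)) ?_
      intro a b h
      exact Subtype.ext (congrArg (fun t : Subgroup.zpowers z => (t : G)) h)
    rw [Nat.card_zpowers, hzo] at h1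
    omega
  set Q := G ⧸ Subgroup.zpowers z with hQ
  let π : G →* Q := QuotientGroup.mk' (Subgroup.zpowers z)
  have hπs : Function.Surjective π := QuotientGroup.mk'_surjective _
  have hπ1 : ∀ g, π g = 1 ↔ g ∈ Subgroup.zpowers z := fun g => QuotientGroup.eq_one_iff g
  let M : Subgroup Q := Ω.map π
  have hMn : M.Normal := hΩn.map π hπs
  have hQp : IsPGroup p Q := hG.to_quotient (Subgroup.zpowers z)
  have hMnt : Nontrivial M := by
    refine ⟨⟨1, ⟨π g0, Subgroup.mem_map_of_mem π hg0⟩, ?_⟩⟩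
    intro h
    apply hg0Z
    rw [← hπ1]
    exact (congrArg (fun t : M => (t : Q)) h).symm
  have hMd : p ∣ Nat.card M := by
    obtain ⟨n, hn0, hn⟩ := (hQp.to_subgroup M).nontrivial_iff_card.mp hMnt
    exact hn.symm ▸ dvd_pow_self _ (ne_of_gt hn0)
  have hact := (hQp.of_equiv ConjAct.toConjAct).exists_fixed_point_of_prime_dvd_card_of_fixed_point
    M hMd (a := 1) (by
      rw [mem_fixedPoints]
      intro q
      exact smul_one q)
  obtain ⟨b, hb, hb1⟩ := hact
  obtain ⟨e, heΩ, heb⟩ := b.2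
  have he1 : e ∉ Subgroup.zpowers z := by
    intro h
    apply hb1
    apply Subtype.ext
    show (1 : Q) = b
    rw [← heb]
    exact ((hπ1 e).2 h).symm
  refine ⟨e, z, (hΩ e).1 heΩ, fun h => he1 (hZ e h ((hΩ e).1 heΩ)), hzc, hzo, ?_⟩
  intro g
  have h1 := (mem_fixedPoints.1 hb) (ConjAct.toConjAct (π g))
  have h2 : π g * (b : Q) * (π g)⁻¹ = b := congrArg (fun t : M => (t : Q)) h1
  rw [← heb, ← map_inv, ← map_mul, ← map_mul] at h2
  have h3 : e⁻¹ * (g * e * g⁻¹) ∈ Subgroup.zpowers z := by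
    rw [← hπ1, map_mul, h2, ← map_mul, inv_mul_cancel, map_one]
  rw [← mem_powers_iff_mem_zpowers] at h3
  obtain ⟨n, hn⟩ := h3
  refine ⟨n, ?_⟩
  have hn' : z ^ n = e⁻¹ * (g * e * g⁻¹) := hn
  rw [hn', mul_inv_cancel_left]

end Pool.Agent.Q91.RP.PairJob
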